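import Pool.Agent.CAM.Clo

set_option autoImplicit false

/-! The pointwise ergodic theorem for bounded functions, from the mean ergodic theorem and the
maximal inequality. -/

open Finset Filter Topology MeasureTheory

namespace Pool.Agent.GAU

open Pool.Agent.CAM

theorem cv_const (c : ℂ) : Cv (fun _ => c) := by
  refine ⟨c, ?_⟩
  refine tendsto_const_nhds.congr' ?_
  filter_upwards [eventually_gt_atTop 0] with N hN
  have hN' : (N : ℂ) ≠ 0 := by exact_mod_cast hN.ne'
  simp only [ces, sum_const, card_range, nsmul_eq_mul]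
  field_simp

theorem cv_diff (t : ℕ → ℂ) (C : ℝ) (hC : ∀ n, ‖t n‖ ≤ C) : Cv (fun n => t n - t (n + 1)) := by
  refine ⟨0, ?_⟩
  have h1 : ∀ N : ℕ, ces (fun n => t n - t (n + 1)) N = (1 / (N : ℂ)) * (t 0 - t N) := by
    intro N
    rw [ces, sum_range_sub']
  rw [tendsto_zero_iff_norm_tendsto_zero]
  have h2 : Tendsto (fun N : ℕ => (2 * C) / (N : ℝ)) atTop (𝓝 0) :=
    tendsto_const_div_atTop_nhds_zero_nat (2 * C)
  refine squeeze_zero (fun N => norm_nonneg _) (fun N => ?_) h2
  rw [h1, norm_mul, norm_div, norm_one, Complex.norm_natCast]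
  have h3 : ‖t 0 - t N‖ ≤ 2 * C := by
    refine (norm_sub_le _ _).trans ?_
    linarith [hC 0, hC N]
  calc 1 / (N : ℝ) * ‖t 0 - t N‖ ≤ 1 / (N : ℝ) * (2 * C) := by gcongr
    _ = 2 * C / N := by ring

theorem cv_diff' (t : ℕ → ℂ) (C : ℝ) (hC : ∀ n, ‖t n‖ ≤ C) (k : ℕ) :
    Cv (fun n => t n - t (n + k)) := by
  induction k with
  | zero =>
    have : (fun n => t n - t (n + 0)) = fun _ => (0 : ℂ) := by
      funext n
      simp
    rw [this]
    exact cv_const 0
  | succ k ih =>
    have h1 := cv_add ih (cv_diff (fun n => t (n + k)) C (fun n => hC _))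
    convert h1 using 2 with n
    have : n + (k + 1) = n + 1 + k := by ring
    rw [this]
    ring

theorem cv_sum {ι : Type*} (s : Finset ι) (F : ι → ℕ → ℂ) (h : ∀ i ∈ s, Cv (F i)) :
    Cv (fun n => ∑ i ∈ s, F i n) := by
  classical
  induction s using Finset.induction_on with
  | empty => simpa using cv_const 0
  | insert a s ha ih =>
    have h1 := cv_add (h a (mem_insert_self _ _)) (ih fun i hi => h i (mem_insert_of_mem hi))
    convert h1 using 2 with n
    rw [sum_insert ha]

theorem birk {Ω : Type*} [MeasurableSpace Ω] (μ : Measure Ω) [IsProbabilityMeasure μ] (S : Ω → Ω)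
    (hS : MeasurePreserving S μ μ) (f : Ω → ℂ) (hf : Measurable f) (C : ℝ) (hb : ∀ x, ‖f x‖ ≤ C) :
    ∀ᵐ x ∂μ, Cv (fun n => f (S^[n] x)) := by
  have hfL : ∀ p, MemLp f p μ := fun p =>
    MemLp.of_bound hf.aestronglyMeasurable C (Eventually.of_forall hb)
  have hfi : Integrable f μ := memLp_one_iff_integrable.1 (hfL 1)
  have key := clo μ S hS (fun _ _ => 1) 1 (fun _ _ => by simp) f hf hfi ?_
  · filter_upwards [key] with x hx
    simpa using hx
  intro ε hε
  -- the Koopman operator
  let U : Lp ℂ 2 μ →L[ℂ] Lp ℂ 2 μ := (Lp.compMeasurePreservingₗᵢ ℂ S hS).toContinuousLinearMap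
  have hU : ‖U‖ ≤ 1 := LinearIsometry.norm_toContinuousLinearMap_le _
  have hUap : ∀ g : Lp ℂ 2 μ, U g = Lp.compMeasurePreserving S hS g := fun g => rfl
  let F : Lp ℂ 2 μ := (hfL 2).toLp f
  have hmean := ContinuousLinearMap.tendsto_birkhoffAverage_orthogonalProjection U hU F
  set Q : Lp ℂ 2 μ := ((U.eqLocus (1 : Lp ℂ 2 μ →L[ℂ] Lp ℂ 2 μ)).orthogonalProjectionOnto F :
    Lp ℂ 2 μ) with hQ
  have hQU : U Q = Q := by
    have h1 := ((U.eqLocus (1 : Lp ℂ 2 μ →L[ℂ] Lp ℂ 2 μ)).orthogonalProjectionOnto F).2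
    exact h1
  have hlim : Tendsto (birkhoffAverage ℂ U _root_.id · F) atTop (𝓝 Q) := hmean
  rw [Metric.tendsto_atTop] at hlim
  obtain ⟨N, hN⟩ := hlim ε hε
  have hN' := hN (N + 1) (by omega)
  -- iterates
  have hit : ∀ n : ℕ, (U^[n]) F = ((hfL 2).comp_measurePreserving (hS.iterate n)).toLp _ := by
    intro n
    have h1 : (⇑U)^[n] = (Lp.compMeasurePreserving (E := ℂ) (p := 2) S hS)^[n] := by
      congr 1
    rw [h1, Lp.compMeasurePreserving_iterate]
    rfl
  set q : Ω → ℂ := fun x => Q x with hq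
  have hqm : Measurable q := (Lp.stronglyMeasurable Q).measurable
  have hqi : Integrable q μ := (Lp.memLp Q).integrable (by norm_num)
  set a : Ω → ℂ := fun x => (1 / ((N + 1 : ℕ) : ℂ)) * ∑ n ∈ range (N + 1), f (S^[n] x) with ha
  have ham : Measurable a := by
    refine Measurable.const_mul ?_ _
    exact Finset.measurable_sum _ fun n _ => hf.comp (hS.measurable.iterate n)
  have hai : Integrable a μ := by
    refine Integrable.const_mul ?_ _
    exact integrable_finset_sum _ fun n _ => (hS.iterate n).integrable_comp_of_integrable hfi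
  have hcoe : (birkhoffAverage ℂ U _root_.id (N + 1) F : Lp ℂ 2 μ) =ᵐ[μ] a := by
    have h1 : (birkhoffAverage ℂ U _root_.id (N + 1) F : Lp ℂ 2 μ) =
        ((1 / ((N + 1 : ℕ) : ℂ)) • ∑ n ∈ range (N + 1),
          ((hfL 2).comp_measurePreserving (hS.iterate n)).toLp _) := by
      rw [birkhoffAverage, birkhoffSum, one_div]
      congr 1
      refine sum_congr rfl fun n _ => ?_
      rw [id, hit n]
    rw [h1]
    refine (Lp.coeFn_smul _ _).trans ?_
    have h2 : ∀ s : Finset ℕ, ((∑ n ∈ s, ((hfL 2).comp_measurePreserving (hS.iterate n)).toLp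
        (f ∘ S^[n]) : Lp ℂ 2 μ) : Ω → ℂ) =ᵐ[μ] fun x => ∑ n ∈ s, f (S^[n] x) := by
      intro s
      classical
      induction s using Finset.induction_on with
      | empty =>
        simp only [sum_empty]
        exact Lp.coeFn_zero _ _ _
      | insert b s hb' ih =>
        simp only [sum_insert hb']
        refine (Lp.coeFn_add _ _).trans ?_
        exact (MemLp.coeFn_toLp _).add ih
    filter_upwards [h2 (range (N + 1))] with x hx
    simp only [Pi.smul_apply, hx, smul_eq_mul, ha]
  refine ⟨fun x => q x + (f x - a x), by fun_prop, hqi.add (hfi.sub hai), ?_, ?_⟩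
  · have h1 : ∀ x, f x - (q x + (f x - a x)) = a x - q x := fun x => by ring
    simp only [h1]
    have h2 : ∫ x, ‖a x - q x‖ ∂μ = ∫ x, ‖((birkhoffAverage ℂ U _root_.id (N + 1) F - Q :
        Lp ℂ 2 μ) : Ω → ℂ) x‖ ∂μ := by
      refine integral_congr_ae ?_
      filter_upwards [hcoe, Lp.coeFn_sub (birkhoffAverage ℂ U _root_.id (N + 1) F) Q] with x hx hx'
      rw [hx', Pi.sub_apply, hx]
    rw [h2]
    have h3 : ∫ x, ‖((birkhoffAverage ℂ U _root_.id (N + 1) F - Q : Lp ℂ 2 μ) : Ω → ℂ) x‖ ∂μ ≤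
        ‖(birkhoffAverage ℂ U _root_.id (N + 1) F - Q : Lp ℂ 2 μ)‖ := by
      set D := (birkhoffAverage ℂ U _root_.id (N + 1) F - Q : Lp ℂ 2 μ) with hD
      have h4 : eLpNorm D 1 μ ≤ eLpNorm D 2 μ :=
        eLpNorm_le_eLpNorm_of_exponent_le (by norm_num) (Lp.memLp D).aestronglyMeasurable
      have h5 : ∫ x, ‖D x‖ ∂μ = (eLpNorm D 1 μ).toReal := by
        rw [eLpNorm_one_eq_lintegral_enorm, integral_norm_eq_lintegral_enorm
          (Lp.memLp D).aestronglyMeasurable]
      rw [h5, Lp.norm_def]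
      exact ENNReal.toReal_mono (Lp.memLp D).eLpNorm_ne_top h4
    refine h3.trans ?_
    rw [← dist_eq_norm]
    exact hN'.le
  · have hinv : ∀ᵐ x ∂μ, q (S x) = q x := by
      have h1 : U Q =ᵐ[μ] q ∘ S := by
        rw [hUap]
        exact Lp.coeFn_compMeasurePreserving Q hS
      rw [hQU] at h1
      filter_upwards [h1] with x hx
      exact hx.symm
    have hinv' : ∀ᵐ x ∂μ, ∀ n : ℕ, q (S^[n] x) = q x := by
      rw [ae_all_iff]
      intro n
      induction n with
      | zero => exact Eventually.of_forall fun x => rfl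
      | succ n ih =>
        have h2 := (hS.iterate n).quasiMeasurePreserving.ae hinv
        filter_upwards [ih, h2] with x hx hx2
        rw [Function.iterate_succ_apply', hx2, hx]
    filter_upwards [hinv'] with x hx
    have h1 : Cv (fun n => f (S^[n] x) - a (S^[n] x)) := by
      have h2 : ∀ n, f (S^[n] x) - a (S^[n] x) = (1 / ((N + 1 : ℕ) : ℂ)) *
          ∑ m ∈ range (N + 1), (f (S^[n] x) - f (S^[n + m] x)) := by
        intro n
        have hN0 : ((N + 1 : ℕ) : ℂ) ≠ 0 := by
          exact_mod_cast Nat.succ_ne_zero N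
        rw [sum_sub_distrib, sum_const, card_range, nsmul_eq_mul, mul_sub, ← mul_assoc,
          one_div, inv_mul_cancel₀ hN0, one_mul]
        congr 1
        simp only [ha, one_div]
        congr 1
        refine sum_congr rfl fun m _ => ?_
        rw [add_comm n m, Function.iterate_add_apply]
      simp only [h2]
      refine cv_smul _ (cv_sum _ _ fun m _ => ?_)
      exact cv_diff' (fun n => f (S^[n] x)) C (fun n => hb _) m
    have h3 := cv_add (cv_const (q x)) h1
    convert h3 using 2 with n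
    rw [mul_one, hx n]

end Pool.Agent.GAU
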