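import Pool.Agent.GAU.Core

set_option autoImplicit false

/-! Passage from a dense class to all bounded functions, for sequences along which the averages of
bounded functions converge almost everywhere (no maximal inequality is used). -/

open Finset Filter Topology MeasureTheory ProbabilityTheory
open scoped NNReal ENNReal

namespace Pool.Agent.GAU

open Pool.Agent.CAM

theorem approx' {s : ℕ → ℂ}
    (h : ∀ ε : ℝ, 0 < ε → ∃ t : ℕ → ℂ, Cv t ∧ ∀ᶠ N in atTop, ‖ces s N - ces t N‖ ≤ ε) : Cv s := by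
  refine cauchySeq_tendsto_of_complete ?_
  rw [Metric.cauchySeq_iff']
  intro ε hε
  obtain ⟨t, ⟨L, hL⟩, ht⟩ := h (ε / 4) (by positivity)
  obtain ⟨N₁, hN₁⟩ := eventually_atTop.1 ht
  obtain ⟨N₀, hN₀⟩ := (Metric.tendsto_atTop.1 hL) (ε / 8) (by positivity)
  refine ⟨max N₀ N₁, fun n hn => ?_⟩
  have h1 := hN₁ n (le_trans (le_max_right _ _) hn)
  have h2 := hN₁ (max N₀ N₁) (le_max_right _ _)
  have h3 := hN₀ n (le_trans (le_max_left _ _) hn)
  have h4 := hN₀ (max N₀ N₁) (le_max_left _ _)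
  rw [dist_eq_norm] at h3 h4 ⊢
  calc ‖ces s n - ces s (max N₀ N₁)‖ = ‖(ces s n - ces t n) + (ces t n - L) -
        (ces t (max N₀ N₁) - L) - (ces s (max N₀ N₁) - ces t (max N₀ N₁))‖ := by
        congr 1; ring
    _ ≤ ‖ces s n - ces t n‖ + ‖ces t n - L‖ + ‖ces t (max N₀ N₁) - L‖ +
        ‖ces s (max N₀ N₁) - ces t (max N₀ N₁)‖ :=
        (norm_sub_le _ _).trans (add_le_add_left ((norm_sub_le _ _).trans
          (add_le_add_left (norm_add_le _ _) _)) _)
    _ < ε := by linarith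

/-- real Cesàro averages -/
theorem ces_ofReal (d : ℕ → ℝ) (N : ℕ) :
    ces (fun n => (d n : ℂ)) N = (((1 / (N : ℝ)) * ∑ n ∈ range N, d n : ℝ) : ℂ) := by
  unfold ces
  push_cast
  rfl

theorem ces_diff (f g w : ℕ → ℂ) (C : ℝ) (_hC : 0 ≤ C) (hw : ∀ n, ‖w n‖ ≤ C) (N : ℕ) :
    ‖ces (fun n => f n * w n) N - ces (fun n => g n * w n) N‖ ≤
      C * ((1 / (N : ℝ)) * ∑ n ∈ range N, ‖f n - g n‖) := by
  have e : ces (fun n => f n * w n) N - ces (fun n => g n * w n) N
      = (1 / (N : ℂ)) * ∑ n ∈ range N, (f n - g n) * w n := by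
    simp only [ces, sub_mul, Finset.sum_sub_distrib, mul_sub]
  rw [e, norm_mul, norm_div, norm_one, Complex.norm_natCast]
  have h2 : ‖∑ n ∈ range N, (f n - g n) * w n‖ ≤ (∑ n ∈ range N, ‖f n - g n‖) * C := by
    calc ‖∑ n ∈ range N, (f n - g n) * w n‖ ≤ ∑ n ∈ range N, ‖(f n - g n) * w n‖ :=
          norm_sum_le _ _
      _ ≤ ∑ n ∈ range N, ‖f n - g n‖ * C := by
          refine Finset.sum_le_sum fun n _ => ?_
          rw [norm_mul]
          exact mul_le_mul_of_nonneg_left (hw n) (norm_nonneg _)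
      _ = (∑ n ∈ range N, ‖f n - g n‖) * C := by rw [Finset.sum_mul]
  calc 1 / (N : ℝ) * ‖∑ n ∈ range N, (f n - g n) * w n‖ ≤
        1 / (N : ℝ) * ((∑ n ∈ range N, ‖f n - g n‖) * C) :=
        mul_le_mul_of_nonneg_left h2 (by positivity)
    _ = C * ((1 / (N : ℝ)) * ∑ n ∈ range N, ‖f n - g n‖) := by ring

variable {Ω : Type*} [MeasurableSpace Ω]

theorem cloU (μ : Measure Ω) [IsProbabilityMeasure μ] (τ : ℕ → Ω → Ω)
    (hτ : ∀ n, MeasurePreserving (τ n) μ μ)
    (hbir : ∀ D : Ω → ℂ, Measurable D → (∃ C : ℝ, ∀ x, ‖D x‖ ≤ C) →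
      ∀ᵐ x ∂μ, Cv (fun n => D (τ n x)))
    (w : ℕ → Ω → ℂ) (C : ℝ) (hw : ∀ n x, ‖w n x‖ ≤ C) (f : Ω → ℂ) (hfm : Measurable f)
    (hfb : ∃ C : ℝ, ∀ x, ‖f x‖ ≤ C)
    (h : ∀ ε : ℝ, 0 < ε → ∃ g : Ω → ℂ, Measurable g ∧ (∃ C : ℝ, ∀ x, ‖g x‖ ≤ C) ∧
      ∫ x, ‖f x - g x‖ ∂μ ≤ ε ∧ ∀ᵐ x ∂μ, Cv (fun n => g (τ n x) * w n x)) :
    ∀ᵐ x ∂μ, Cv (fun n => f (τ n x) * w n x) := by
  have h4 : ∀ j : ℕ, ∃ g : Ω → ℂ, Measurable g ∧ (∃ C : ℝ, ∀ x, ‖g x‖ ≤ C) ∧
      ∫ x, ‖f x - g x‖ ∂μ ≤ (1 / 2 : ℝ) ^ j * (1 / 2 : ℝ) ^ j ∧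
      ∀ᵐ x ∂μ, Cv (fun n => g (τ n x) * w n x) := fun j => h _ (by positivity)
  choose g hgm hgb hgε hgc using h4
  obtain ⟨Cf, hCf⟩ := hfb
  choose Cg hCg using hgb
  -- the averages of `‖f - g j‖`
  set A : ℕ → ℕ → Ω → ℝ := fun j N x => (1 / (N : ℝ)) * ∑ n ∈ range N, ‖f (τ n x) - g j (τ n x)‖
    with hA
  have hAm : ∀ j N, Measurable (A j N) := by
    intro j N
    refine Measurable.const_mul ?_ _
    refine Finset.measurable_sum _ fun n _ => ?_
    exact ((hfm.comp (hτ n).measurable).sub ((hgm j).comp (hτ n).measurable)).norm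
  have hA0 : ∀ j N x, 0 ≤ A j N x := fun j N x =>
    mul_nonneg (by positivity) (Finset.sum_nonneg fun n _ => norm_nonneg _)
  have hdm : ∀ j, Measurable fun x => ‖f x - g j x‖ := fun j => (hfm.sub (hgm j)).norm
  have hdi : ∀ j, Integrable (fun x => ‖f x - g j x‖) μ := by
    intro j
    refine Integrable.of_bound (hdm j).aestronglyMeasurable (Cf + Cg j)
      (Eventually.of_forall fun x => ?_)
    rw [norm_norm]
    exact (norm_sub_le _ _).trans (add_le_add (hCf x) (hCg j x))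
  have hAint : ∀ j N, ∫⁻ x, ENNReal.ofReal (A j N x) ∂μ ≤
      ENNReal.ofReal ((1 / 2 : ℝ) ^ j * (1 / 2 : ℝ) ^ j) := by
    intro j N
    have hi : ∀ n, Integrable (fun x => ‖f (τ n x) - g j (τ n x)‖) μ := fun n =>
      (hτ n).integrable_comp_of_integrable (hdi j)
    have hAi : Integrable (A j N) μ := (integrable_finsetSum _ fun n _ => hi n).const_mul _
    rw [← ofReal_integral_eq_lintegral_ofReal hAi (Eventually.of_forall (hA0 j N))]
    refine ENNReal.ofReal_le_ofReal ?_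
    have e1 : ∫ x, A j N x ∂μ = (1 / (N : ℝ)) * ∑ n ∈ range N, ∫ x, ‖f x - g j x‖ ∂μ := by
      simp only [hA]
      rw [integral_const_mul, integral_finsetSum _ fun n _ => hi n]
      congr 1
      refine Finset.sum_congr rfl fun n _ => ?_
      have h5 : ∫ y, ‖f y - g j y‖ ∂(μ.map (τ n)) = ∫ x, ‖f (τ n x) - g j (τ n x)‖ ∂μ :=
        integral_map (hτ n).measurable.aemeasurable (hdm j).aestronglyMeasurable
      rw [← h5, (hτ n).map_eq]
    rw [e1, sum_const, card_range, nsmul_eq_mul]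
    rcases Nat.eq_zero_or_pos N with rfl | hN
    · simp only [Nat.cast_zero, div_zero, zero_mul]
      positivity
    · have hN' : (0 : ℝ) < N := by exact_mod_cast hN
      rw [← mul_assoc, one_div, inv_mul_cancel₀ hN'.ne', one_mul]
      exact hgε j
  set Hj : ℕ → Ω → ℝ≥0∞ := fun j x => liminf (fun N => ENNReal.ofReal (A j N x)) atTop with hHj
  have hHm : ∀ j, Measurable (Hj j) := fun j =>
    Measurable.liminf fun N => (hAm j N).ennreal_ofReal
  have hHint : ∀ j, ∫⁻ x, Hj j x ∂μ ≤ ENNReal.ofReal ((1 / 2 : ℝ) ^ j * (1 / 2 : ℝ) ^ j) := by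
    intro j
    refine (lintegral_liminf_le fun N => (hAm j N).ennreal_ofReal).trans ?_
    refine liminf_le_of_le ⟨0, Eventually.of_forall fun _ => bot_le⟩ fun b hb => ?_
    obtain ⟨N, hN⟩ := hb.exists
    exact hN.trans (hAint j N)
  have hB : ∀ j, μ {x | ENNReal.ofReal ((1 / 2 : ℝ) ^ j) ≤ Hj j x} ≤
      ENNReal.ofReal ((1 / 2 : ℝ) ^ j) := by
    intro j
    have hpos : 0 < ENNReal.ofReal ((1 / 2 : ℝ) ^ j) := ENNReal.ofReal_pos.2 (by positivity)
    have h6 := mul_meas_ge_le_lintegral (hHm j) (ENNReal.ofReal ((1 / 2 : ℝ) ^ j)) (μ := μ)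
    have h7 := h6.trans (hHint j)
    rw [ENNReal.ofReal_mul (by positivity)] at h7
    exact (ENNReal.mul_le_mul_iff_right hpos.ne' ENNReal.ofReal_ne_top).1 h7
  have hsum : ∑' j, μ {x | ENNReal.ofReal ((1 / 2 : ℝ) ^ j) ≤ Hj j x} ≠ ⊤ := by
    refine ne_top_of_le_ne_top ?_ (ENNReal.tsum_le_tsum hB)
    rw [← ENNReal.ofReal_tsum_of_nonneg (fun j => by positivity) summable_geometric_two]
    exact ENNReal.ofReal_ne_top
  have hBC := ae_eventually_notMem hsum
  have hC1 : ∀ᵐ x ∂μ, ∀ j, Cv (fun n => g j (τ n x) * w n x) := ae_all_iff.mpr hgc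
  have hC2 : ∀ᵐ x ∂μ, ∀ j, Cv (fun n => ((‖f (τ n x) - g j (τ n x)‖ : ℝ) : ℂ)) := by
    rw [ae_all_iff]
    intro j
    refine hbir (fun x => ((‖f x - g j x‖ : ℝ) : ℂ)) (Complex.measurable_ofReal.comp (hdm j))
      ⟨Cf + Cg j, fun x => ?_⟩
    rw [Complex.norm_real, norm_norm]
    exact (norm_sub_le _ _).trans (add_le_add (hCf x) (hCg j x))
  filter_upwards [hBC, hC1, hC2] with x hx hx1 hx2
  have hC0 : 0 ≤ C := (norm_nonneg _).trans (hw 0 x)
  refine approx' fun ε hε => ?_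
  have hlim : Tendsto (fun j : ℕ => C * (1 / 2 : ℝ) ^ j) atTop (𝓝 0) := by
    simpa using (tendsto_pow_atTop_nhds_zero_of_lt_one (by norm_num : (0 : ℝ) ≤ 1 / 2)
      (by norm_num)).const_mul C
  obtain ⟨j, hj1, hj2⟩ := ((hlim.eventually (gt_mem_nhds hε)).and hx).exists
  refine ⟨_, hx1 j, ?_⟩
  -- the limit of the averages of `‖f - g j‖` is small
  have hj3 : Hj j x < ENNReal.ofReal ((1 / 2 : ℝ) ^ j) := not_le.1 hj2
  obtain ⟨L, hL⟩ := hx2 j
  have hL' : Tendsto (fun N => A j N x) atTop (𝓝 L.re) := by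
    have h8 := (Complex.continuous_re.tendsto L).comp hL
    refine h8.congr fun N => ?_
    rw [Function.comp_apply, ces_ofReal, Complex.ofReal_re]
  have hL2 : Tendsto (fun N => ENNReal.ofReal (A j N x)) atTop (𝓝 (ENNReal.ofReal L.re)) :=
    ENNReal.tendsto_ofReal hL'
  have hL3 : Hj j x = ENNReal.ofReal L.re := hL2.liminf_eq
  rw [hL3] at hj3
  have hL4 : L.re < (1 / 2 : ℝ) ^ j := (ENNReal.ofReal_lt_ofReal_iff (by positivity)).1 hj3
  filter_upwards [hL'.eventually (gt_mem_nhds hL4)] with N hN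
  refine (ces_diff (fun n => f (τ n x)) (fun n => g j (τ n x)) (fun n => w n x) C hC0
    (fun n => hw n x) N).trans ?_
  refine le_trans ?_ hj1.le
  exact mul_le_mul_of_nonneg_left hN.le hC0

theorem multU (μ : Measure Ω) [IsProbabilityMeasure μ] {k : ℕ}
    (τ : ℕ → Fin k → Ω → Ω) (hτ : ∀ n i, MeasurePreserving (τ n i) μ μ)
    (hbir : ∀ i, ∀ D : Ω → ℂ, Measurable D → (∃ C : ℝ, ∀ x, ‖D x‖ ≤ C) →
      ∀ᵐ x ∂μ, Cv (fun n => D (τ n i x)))
    (Φ : Set (Ω → ℂ))
    (hΦm : ∀ φ ∈ Φ, Measurable φ) (hΦb : ∀ φ ∈ Φ, ∃ C : ℝ, ∀ x, ‖φ x‖ ≤ C)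
    (hdense : ∀ f : Ω → ℂ, Measurable f → Integrable f μ → ∀ ε : ℝ, 0 < ε →
      ∃ g ∈ Submodule.span ℂ Φ, ∫ x, ‖f x - g x‖ ∂μ ≤ ε)
    (hΦ : ∀ φ : Fin k → Ω → ℂ, (∀ i, φ i ∈ Φ) → ∀ᵐ x ∂μ, Cv (fun n => ∏ i, φ i (τ n i x)))
    (f : Fin k → Ω → ℂ) (hf : ∀ i, Measurable (f i)) (hb : ∀ i, ∃ C : ℝ, ∀ x, ‖f i x‖ ≤ C) :
    ∀ᵐ x ∂μ, Cv (fun n => ∏ i, f i (τ n i x)) := by
  have main : ∀ s : Finset (Fin k), ∀ f : Fin k → Ω → ℂ, (∀ i, i ∉ s → f i ∈ Φ) →
      (∀ i ∈ s, Measurable (f i) ∧ ∃ C : ℝ, ∀ x, ‖f i x‖ ≤ C) →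
      ∀ᵐ x ∂μ, Cv (fun n => ∏ i, f i (τ n i x)) := by
    intro s
    induction s using Finset.induction_on with
    | empty =>
      intro f hf _
      exact hΦ f fun i => hf i (Finset.notMem_empty i)
    | insert j s hj ih =>
      intro f hfΦ hfs
      have hmb : ∀ i, Measurable (f i) ∧ ∃ C : ℝ, ∀ x, ‖f i x‖ ≤ C := by
        intro i
        by_cases hi : i ∈ insert j s
        · exact hfs i hi
        · exact ⟨hΦm _ (hfΦ i hi), hΦb _ (hfΦ i hi)⟩
      choose hm C hC using hmb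
      set w : ℕ → Ω → ℂ := fun n x => ∏ i ∈ Finset.univ.erase j, f i (τ n i x) with hw
      have hprod : ∀ (g : Ω → ℂ) (n : ℕ) (x : Ω),
          ∏ i, (Function.update f j g) i (τ n i x) = g (τ n j x) * w n x := by
        intro g n x
        rw [← Finset.mul_prod_erase Finset.univ _ (Finset.mem_univ j), Function.update_self, hw]
        congr 1
        refine Finset.prod_congr rfl fun i hi => ?_
        rw [Function.update_of_ne (Finset.ne_of_mem_erase hi)]
      have hwb : ∀ n x, ‖w n x‖ ≤ ∏ i ∈ Finset.univ.erase j, C i := by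
        intro n x
        rw [hw, norm_prod]
        exact Finset.prod_le_prod (fun i _ => norm_nonneg _) fun i _ => hC i _
      have hspan : ∀ g ∈ Submodule.span ℂ Φ, (Measurable g ∧ ∃ C : ℝ, ∀ x, ‖g x‖ ≤ C) ∧
          ∀ᵐ x ∂μ, Cv (fun n => g (τ n j x) * w n x) := by
        intro g hg
        induction hg using Submodule.span_induction with
        | mem g hg =>
          refine ⟨⟨hΦm g hg, hΦb g hg⟩, ?_⟩
          have h1 := ih (Function.update f j g) ?_ ?_
          · filter_upwards [h1] with x hx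
            simpa only [hprod] using hx
          · intro i hi
            by_cases hij : i = j
            · subst hij
              rw [Function.update_self]
              exact hg
            · rw [Function.update_of_ne hij]
              exact hfΦ i fun hmem => (Finset.mem_insert.mp hmem).elim hij hi
          · intro i hi
            have hij : i ≠ j := fun e => hj (e ▸ hi)
            rw [Function.update_of_ne hij]
            exact hfs i (Finset.mem_insert_of_mem hi)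
        | zero =>
          refine ⟨⟨measurable_zero, 0, fun x => by simp⟩, Eventually.of_forall fun x => ?_⟩
          simpa only [Pi.zero_apply, zero_mul] using Clo_zero
        | add g h _ _ hg hh =>
          obtain ⟨⟨hg1, Cg, hCg⟩, hg2⟩ := hg
          obtain ⟨⟨hh1, Ch, hCh⟩, hh2⟩ := hh
          refine ⟨⟨hg1.add hh1, Cg + Ch, fun x => (norm_add_le _ _).trans
            (add_le_add (hCg x) (hCh x))⟩, ?_⟩
          filter_upwards [hg2, hh2] with x h1 h2
          simpa only [Pi.add_apply, add_mul] using cv_add h1 h2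
        | smul c g _ hg =>
          obtain ⟨⟨hg1, Cg, hCg⟩, hg2⟩ := hg
          refine ⟨⟨hg1.const_smul c, ‖c‖ * Cg, fun x => ?_⟩, ?_⟩
          · rw [Pi.smul_apply, norm_smul]
            exact mul_le_mul_of_nonneg_left (hCg x) (norm_nonneg c)
          · filter_upwards [hg2] with x h1
            simpa only [Pi.smul_apply, smul_eq_mul, mul_assoc] using cv_smul c h1
      have hclo := cloU μ (fun n => τ n j) (fun n => hτ n j) (hbir j) w _ hwb (f j) (hm j)
        ⟨C j, hC j⟩ ?_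
      · filter_upwards [hclo] with x hx
        have e : (fun n => ∏ i, f i (τ n i x)) = fun n => f j (τ n j x) * w n x := by
          funext n
          have := hprod (f j) n x
          rwa [Function.update_eq_self] at this
        rw [e]
        exact hx
      · intro ε hε
        have hfi : Integrable (f j) μ :=
          Integrable.of_bound (hm j).aestronglyMeasurable (C j) (Eventually.of_forall (hC j))
        obtain ⟨g, hg, hgε⟩ := hdense (f j) (hm j) hfi ε hε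
        obtain ⟨⟨h1, h2⟩, h3⟩ := hspan g hg
        exact ⟨g, h1, h2, hgε, h3⟩
  exact main Finset.univ f (fun i hi => absurd (Finset.mem_univ i) hi) fun i _ => ⟨hf i, hb i⟩

end Pool.Agent.GAU
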