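import Pool.Agent.GAU.Rot

set_option autoImplicit false

/-! The main step: almost everywhere convergence for exponentials of Gaussian functions. -/

open Finset Filter Topology MeasureTheory ProbabilityTheory
open scoped NNReal ENNReal

namespace Pool.Agent.GAU

open Pool.Agent.CAM

theorem cv_meas {W : Type*} [MeasurableSpace W] (s : ℕ → W → ℂ) (hs : ∀ n, Measurable (s n)) :
    MeasurableSet {w | Cv (fun n => s n w)} := by
  unfold Cv
  refine MeasureTheory.measurableSet_exists_tendsto (f := fun N w => ces (fun n => s n w) N)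
    fun N => ?_
  unfold ces
  exact (Finset.measurable_sum _ fun n _ => hs n).const_mul _

theorem dct {W : Type*} [MeasurableSpace W] (ν : Measure W) [IsProbabilityMeasure ν]
    (s : ℕ → W → ℂ) (hs : ∀ n, Measurable (s n)) (hb : ∀ n w, ‖s n w‖ ≤ 1)
    (h : ∀ᵐ w ∂ν, Cv (fun n => s n w)) : Cv (fun n => ∫ w, s n w ∂ν) := by
  classical
  let f : W → ℂ := fun w => if hw : Cv (fun n => s n w) then hw.choose else 0
  refine ⟨∫ w, f w ∂ν, ?_⟩
  have h1 : ∀ N, ces (fun n => ∫ w, s n w ∂ν) N = ∫ w, ces (fun n => s n w) N ∂ν := by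
    intro N
    unfold ces
    rw [integral_const_mul, integral_finsetSum]
    intro n _
    exact Integrable.of_bound (hs n).aestronglyMeasurable 1 (Eventually.of_forall (hb n))
  have h2 : ces (fun n => ∫ w, s n w ∂ν) = fun N => ∫ w, ces (fun n => s n w) N ∂ν := funext h1
  rw [h2]
  refine tendsto_integral_of_dominated_convergence (fun _ => 1) (fun N => ?_)
    (integrable_const 1) (fun N => ?_) ?_
  · unfold ces
    exact ((Finset.measurable_sum _ fun n _ => hs n).const_mul _).aestronglyMeasurable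
  · refine Eventually.of_forall fun w => ?_
    unfold ces
    rw [norm_mul, norm_div, norm_one, Complex.norm_natCast]
    have h3 : ‖∑ n ∈ range N, s n w‖ ≤ N := by
      refine (norm_sum_le _ _).trans ?_
      refine (sum_le_sum fun n _ => hb n w).trans ?_
      simp
    rcases Nat.eq_zero_or_pos N with rfl | hN
    · simp
    · have hN' : (0 : ℝ) < N := by exact_mod_cast hN
      calc 1 / (N : ℝ) * ‖∑ n ∈ range N, s n w‖ ≤ 1 / (N : ℝ) * N := by gcongr
        _ = 1 := by field_simp
  · filter_upwards [h] with w hw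
    have h4 : f w = hw.choose := by simp only [f, dif_pos hw]
    rw [h4]
    exact hw.choose_spec

variable {Ω : Type*} [MeasurableSpace Ω] {μ : Measure Ω} [IsProbabilityMeasure μ]

theorem norm_eI (t : ℝ) : ‖Complex.exp ((t : ℂ) * Complex.I)‖ = 1 :=
  Complex.norm_exp_ofReal_mul_I t

theorem prod_eI {ι : Type*} (s : Finset ι) (t : ι → ℝ) :
    ∏ i ∈ s, Complex.exp ((t i : ℂ) * Complex.I) = Complex.exp (((∑ i ∈ s, t i : ℝ) : ℂ) * Complex.I) := by
  rw [← Complex.exp_sum]
  push_cast
  rw [sum_mul]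

/-- the first step -/
theorem stepA {k : ℕ} (τ : ℕ → Fin k → Ω → Ω) (σ : ℕ → Fin k × Fin k → Ω → Ω)
    (hconv : ∀ F : (Fin k → Ω) × (Fin k × Fin k → Ω) → ℂ, Measurable F → (∀ w, ‖F w‖ ≤ 1) →
      ∀ᵐ w ∂((Measure.pi fun _ : Fin k => μ).prod (Measure.pi fun _ : Fin k × Fin k => μ)),
        Cv (fun n => F (fun j => τ n j (w.1 j), fun p => σ n p (w.2 p))))
    (ξ : Fin k → Ω → ℝ) (hξ : ∀ j, Measurable (ξ j)) (c : ℝ) :
    ∀ᵐ w ∂((Measure.pi fun _ : Fin k => μ).prod (Measure.pi fun _ : Fin k × Fin k => μ)),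
      Cv (fun n => Complex.exp (((∑ j, P1 (fun (p : Fin k × ℕ) x => ξ p.1 (τ p.2 p.1 x)) w.1
          (j, n) : ℝ) : ℂ) * Complex.I) *
        Complex.exp (((∑ p, c * ξ p.1 (σ n p (w.2 p)) : ℝ) : ℂ) * Complex.I)) := by
  have h1 := hconv (fun w => Complex.exp (((∑ j, Real.sqrt k * ξ j (w.1 j) : ℝ) : ℂ) *
      Complex.I) * Complex.exp (((∑ p, c * ξ p.1 (w.2 p) : ℝ) : ℂ) * Complex.I)) ?_ ?_
  · exact h1
  · have m1 : Measurable fun w : (Fin k → Ω) × (Fin k × Fin k → Ω) =>
        ∑ j, Real.sqrt k * ξ j (w.1 j) := by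
      refine Finset.measurable_sum _ fun j _ => Measurable.const_mul ?_ _
      exact (hξ j).comp ((measurable_pi_apply j).comp measurable_fst)
    have m2 : Measurable fun w : (Fin k → Ω) × (Fin k × Fin k → Ω) =>
        ∑ p : Fin k × Fin k, c * ξ p.1 (w.2 p) := by
      refine Finset.measurable_sum _ fun p _ => Measurable.const_mul ?_ _
      exact (hξ p.1).comp ((measurable_pi_apply p).comp measurable_snd)
    exact ((Complex.measurable_ofReal.comp m1).mul_const _).cexp.mul
      ((Complex.measurable_ofReal.comp m2).mul_const _).cexp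
  · intro w
    rw [norm_mul, norm_eI, norm_eI, mul_one]

/-- the rotation step -/
theorem stepB {k : ℕ} (hk : 0 < k) {H : Submodule ℝ (Ω → ℝ)} (hH : ∀ ξ ∈ H, IsG μ ξ)
    (g : Fin k × ℕ → Ω → ℝ) (hg : ∀ p, g p ∈ H) {Y : Type*} [MeasurableSpace Y] (ν : Measure Y)
    [IsProbabilityMeasure ν] (a : ℕ → Y → ℂ) (ha : ∀ n, Measurable (a n))
    (h : ∀ᵐ w ∂((Measure.pi fun _ : Fin k => μ).prod ν),
      Cv (fun n => Complex.exp (((∑ j, P1 g w.1 (j, n) : ℝ) : ℂ) * Complex.I) * a n w.2)) :
    ∀ᵐ w ∂((μ.prod (Measure.pi fun _ : Fin k => μ)).prod ν),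
      Cv (fun n => Complex.exp (((∑ j, P2 g w.1 (j, n) : ℝ) : ℂ) * Complex.I) * a n w.2) := by
  have hgm : ∀ p, Measurable (g p) := fun p => (hH _ (hg p)).1
  have hm1 : Measurable (P1 g) := by
    refine measurable_pi_lambda _ fun p => ?_
    exact ((hgm p).comp (measurable_pi_apply _)).const_mul _
  have hm2 : Measurable (P2 g) := by
    refine measurable_pi_lambda _ fun p => ?_
    refine ((hgm p).comp measurable_fst).add (Measurable.const_mul ?_ _)
    refine ((hgm p).comp ((measurable_pi_apply _).comp measurable_snd)).add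
      (Measurable.const_mul ?_ _)
    exact Finset.measurable_sum _ fun l _ => (hgm p).comp ((measurable_pi_apply _).comp measurable_snd)
  have hset : MeasurableSet {w : (Fin k × ℕ → ℝ) × Y |
      Cv (fun n => Complex.exp (((∑ j, w.1 (j, n) : ℝ) : ℂ) * Complex.I) * a n w.2)} := by
    refine cv_meas (fun n (w : (Fin k × ℕ → ℝ) × Y) =>
      Complex.exp (((∑ j, w.1 (j, n) : ℝ) : ℂ) * Complex.I) * a n w.2) fun n => ?_
    have m1 : Measurable fun w : (Fin k × ℕ → ℝ) × Y => ∑ j, w.1 (j, n) :=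
      Finset.measurable_sum _ fun j _ => (measurable_pi_apply (j, n)).comp measurable_fst
    exact ((Complex.measurable_ofReal.comp m1).mul_const _).cexp.mul ((ha n).comp measurable_snd)
  have e1 : ∀ᵐ w ∂(((Measure.pi fun _ : Fin k => μ).map (P1 g)).prod ν),
      Cv (fun n => Complex.exp (((∑ j, w.1 (j, n) : ℝ) : ℂ) * Complex.I) * a n w.2) := by
    have h2 : ((Measure.pi fun _ : Fin k => μ).map (P1 g)).prod ν =
        ((Measure.pi fun _ : Fin k => μ).prod ν).map (Prod.map (P1 g) id) := by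
      conv_lhs => rw [← Measure.map_id (μ := ν)]
      exact Measure.map_prod_map _ _ hm1 measurable_id
    rw [h2, ae_map_iff (hm1.prodMap measurable_id).aemeasurable hset]
    exact h
  rw [rot hk hH g hg] at e1
  have h3 : ((μ.prod (Measure.pi fun _ : Fin k => μ)).map (P2 g)).prod ν =
      ((μ.prod (Measure.pi fun _ : Fin k => μ)).prod ν).map (Prod.map (P2 g) id) := by
    conv_lhs => rw [← Measure.map_id (μ := ν)]
    exact Measure.map_prod_map _ _ hm2 measurable_id
  rw [h3, ae_map_iff (hm2.prodMap measurable_id).aemeasurable hset] at e1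
  exact e1

end Pool.Agent.GAU
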