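import Pool.Agent.GAU.Core

set_option autoImplicit false

/-! The main step: almost everywhere convergence for exponentials of Gaussian functions. -/

open Finset Filter Topology MeasureTheory ProbabilityTheory
open scoped NNReal ENNReal

namespace Pool.Agent.GAU

open Pool.Agent.CAM

variable {Ω : Type*} [MeasurableSpace Ω] {μ : Measure Ω} [IsProbabilityMeasure μ]

theorem int_fst {k : ℕ} (hk : 0 < k) {H : Submodule ℝ (Ω → ℝ)} (hH : ∀ ξ ∈ H, IsG μ ξ)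
    (τ : ℕ → Fin k → Ω → Ω) (hτ : ∀ n i, MeasurePreserving (τ n i) μ μ)
    (hτH : ∀ n i, ∀ ξ ∈ H, (fun x => ξ (τ n i x)) ∈ H)
    (ξ : Fin k → Ω → ℝ) (hξ : ∀ j, ξ j ∈ H) (n : ℕ) (x₀ : Ω) :
    ∫ x : Fin k → Ω, Complex.exp (((∑ j, P2 (fun (p : Fin k × ℕ) x => ξ p.1 (τ p.2 p.1 x))
      (x₀, x) (j, n) : ℝ) : ℂ) * Complex.I) ∂(Measure.pi fun _ => μ) =
      Complex.exp (((∑ j, ξ j (τ n j x₀) : ℝ) : ℂ) * Complex.I) * Complex.exp
        ((-(1 / 2) * (k * ∑ l, B μ (ξ l) (ξ l) - B μ (fun x => ∑ j, ξ j (τ n j x))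
          (fun x => ∑ j, ξ j (τ n j x))) : ℝ)) := by
  set u : Fin k → Ω → ℝ := fun j x => ξ j (τ n j x) with hu
  have huH : ∀ j, u j ∈ H := fun j => hτH n j _ (hξ j)
  have h1 : ∀ x : Fin k → Ω, ∑ j, P2 (fun (p : Fin k × ℕ) x => ξ p.1 (τ p.2 p.1 x))
      (x₀, x) (j, n) = (∑ j, u j x₀) + rc u x := by
    intro x
    simp only [P2, rc, hu]
    rw [sum_add_distrib, ← mul_sum, sum_add_distrib, sum_add_distrib, ← mul_sum, ← mul_sum]
    congr 4
    exact sum_comm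
  simp_rw [h1]
  rw [cond_int hk hH u huH]
  have h2 : ∀ l, B μ (u l) (u l) = B μ (ξ l) (ξ l) := fun l =>
    B_comp (hτ n l) (hH _ (hξ l)).1 (hH _ (hξ l)).1
  simp_rw [h2]
  rfl

theorem int_snd {k : ℕ} {H : Submodule ℝ (Ω → ℝ)} (hH : ∀ ξ ∈ H, IsG μ ξ)
    (τ : ℕ → Fin k → Ω → Ω) (hτ : ∀ n i, MeasurePreserving (τ n i) μ μ)
    (hτH : ∀ n i, ∀ ξ ∈ H, (fun x => ξ (τ n i x)) ∈ H)
    (σ : ℕ → Fin k × Fin k → Ω → Ω) (hσ : ∀ n p, MeasurePreserving (σ n p) μ μ)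
    (hσH : ∀ n p, ∀ ξ ∈ H, (fun x => ξ (σ n p x)) ∈ H)
    (hστ : ∀ n p x, σ n p (τ n p.2 x) = τ n p.1 x)
    (ξ : Fin k → Ω → ℝ) (hξ : ∀ j, ξ j ∈ H) (n : ℕ) :
    ∫ y : Fin k × Fin k → Ω, Complex.exp (((∑ p, Real.sqrt (1 / 2) * ξ p.1 (σ n p (y p)) : ℝ)
      : ℂ) * Complex.I) * Complex.exp (((∑ p, Real.sqrt (1 / 2) * ξ p.2 (y p) : ℝ)
      : ℂ) * Complex.I) ∂(Measure.pi fun _ => μ) =
      Complex.exp ((-(1 / 2) * (∑ p : Fin k × Fin k, (1 / 2) * (B μ (ξ p.1) (ξ p.1) +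
        B μ (ξ p.2) (ξ p.2)) + B μ (fun x => ∑ j, ξ j (τ n j x))
          (fun x => ∑ j, ξ j (τ n j x))) : ℝ)) := by
  set c : ℝ := Real.sqrt (1 / 2) with hc
  have hcc : c * c = 1 / 2 := Real.mul_self_sqrt (by norm_num)
  have hVn : ∀ p, (fun x => ξ p.1 (σ n p x)) ∈ H := fun p =>
    hσH n p _ (hξ p.1)
  set w : Fin k × Fin k → Ω → ℝ := fun p x => c * (ξ p.1 (σ n p x) + ξ p.2 x) with hw
  have hwH : ∀ p, w p ∈ H := fun p => H.smul_mem c (H.add_mem (hVn p) (hξ p.2))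
  have h1 : ∀ y : Fin k × Fin k → Ω, Complex.exp (((∑ p, c * ξ p.1 (σ n p (y p)) : ℝ)
      : ℂ) * Complex.I) * Complex.exp (((∑ p, c * ξ p.2 (y p) : ℝ) : ℂ) * Complex.I) =
      Complex.exp (((∑ p, w p (y p) : ℝ) : ℂ) * Complex.I) := by
    intro y
    have e : (∑ p, c * ξ p.1 (σ n p (y p))) + ∑ p, c * ξ p.2 (y p) = ∑ p, w p (y p) := by
      rw [← sum_add_distrib]
      refine sum_congr rfl fun p _ => ?_
      simp only [hw]
      ring
    rw [← Complex.exp_add, ← add_mul, ← Complex.ofReal_add, e]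
  simp_rw [h1]
  rw [pi_char w fun p => hH _ (hwH p)]
  have hm : ∀ j, Measurable (ξ j) := fun j => (hH _ (hξ j)).1
  have hL : ∀ j, MemLp (ξ j) 2 μ := fun j => (hH _ (hξ j)).memLp
  have h2 : ∀ p, B μ (w p) (w p) = (1 / 2) * (B μ (ξ p.1) (ξ p.1) + B μ (ξ p.2) (ξ p.2)) +
      B μ (fun x => ξ p.1 (τ n p.1 x)) (fun x => ξ p.2 (τ n p.2 x)) := by
    intro p
    have hVL : MemLp (fun x => ξ p.1 (σ n p x)) 2 μ := (hH _ (hVn p)).memLp
    have hsL : MemLp (fun x => ξ p.1 (σ n p x) + ξ p.2 x) 2 μ := hVL.add (hL p.2)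
    have e1 : B μ (fun x => ξ p.1 (σ n p x)) (fun x => ξ p.1 (σ n p x)) =
        B μ (ξ p.1) (ξ p.1) := B_comp (hσ n p) (hm _) (hm _)
    have e2 : B μ (fun x => ξ p.1 (σ n p x)) (ξ p.2) =
        B μ (fun x => ξ p.1 (τ n p.1 x)) (fun x => ξ p.2 (τ n p.2 x)) := by
      have e3 := B_comp (μ := μ) (hτ n p.2) (u := fun x => ξ p.1 (σ n p x))
        (v := ξ p.2) (hH _ (hVn p)).1 (hm _)
      simp only [hστ] at e3
      exact e3.symm
    simp only [hw]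
    rw [B_smul_left, B_smul_right, ← mul_assoc, hcc, B_add_left hVL (hL p.2) hsL,
      B_add_right hVL hVL (hL p.2), B_add_right (hL p.2) hVL (hL p.2), e1,
      B_comm μ (ξ p.2) (fun x => ξ p.1 (σ n p x)), e2]
    ring
  simp_rw [h2]
  rw [sum_add_distrib]
  congr 3
  have huL : ∀ j, MemLp (fun x => ξ j (τ n j x)) 2 μ := fun j =>
    (hH _ (hτH n j _ (hξ j))).memLp
  have h3 := B_sum (μ := μ) (univ : Finset (Fin k)) (univ : Finset (Fin k))
    (fun j x => ξ j (τ n j x)) (fun j x => ξ j (τ n j x)) (fun j _ => huL j)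
    (fun j _ => huL j)
  have h4 : ∑ p : Fin k × Fin k, B μ (fun x => ξ p.1 (τ n p.1 x))
      (fun x => ξ p.2 (τ n p.2 x)) = ∑ i, ∑ j, B μ (fun x => ξ i (τ n i x))
      (fun x => ξ j (τ n j x)) := Fintype.sum_prod_type _
  rw [h3, h4]

theorem core {k : ℕ} (hk : 0 < k) {H : Submodule ℝ (Ω → ℝ)} (hH : ∀ ξ ∈ H, IsG μ ξ)
    (τ : ℕ → Fin k → Ω → Ω) (hτ : ∀ n i, MeasurePreserving (τ n i) μ μ)
    (hτH : ∀ n i, ∀ ξ ∈ H, (fun x => ξ (τ n i x)) ∈ H)
    (σ : ℕ → Fin k × Fin k → Ω → Ω) (hσ : ∀ n p, MeasurePreserving (σ n p) μ μ)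
    (hσH : ∀ n p, ∀ ξ ∈ H, (fun x => ξ (σ n p x)) ∈ H)
    (hστ : ∀ n p x, σ n p (τ n p.2 x) = τ n p.1 x)
    (hconv : ∀ F : (Fin k → Ω) × (Fin k × Fin k → Ω) → ℂ, Measurable F → (∀ w, ‖F w‖ ≤ 1) →
      ∀ᵐ w ∂((Measure.pi fun _ : Fin k => μ).prod (Measure.pi fun _ : Fin k × Fin k => μ)),
        Cv (fun n => F (fun j => τ n j (w.1 j), fun p => σ n p (w.2 p))))
    (ξ : Fin k → Ω → ℝ) (hξ : ∀ j, ξ j ∈ H) :
    ∀ᵐ x ∂μ, Cv (fun n => ∏ j, Complex.exp ((ξ j (τ n j x) : ℂ) * Complex.I)) := by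
  have hm : ∀ j, Measurable (ξ j) := fun j => (hH _ (hξ j)).1
  set g : Fin k × ℕ → Ω → ℝ := fun p x => ξ p.1 (τ p.2 p.1 x) with hg
  have hgH : ∀ p, g p ∈ H := fun p => hτH p.2 p.1 _ (hξ p.1)
  have hgm : ∀ p, Measurable (g p) := fun p => (hH _ (hgH p)).1
  set c : ℝ := Real.sqrt (1 / 2) with hc
  set a : ℕ → (Fin k × Fin k → Ω) → ℂ := fun n y =>
    Complex.exp (((∑ p, c * ξ p.1 (σ n p (y p)) : ℝ) : ℂ) * Complex.I) with ha
  set b : (Fin k × Fin k → Ω) → ℂ := fun y =>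
    Complex.exp (((∑ p, c * ξ p.2 (y p) : ℝ) : ℂ) * Complex.I) with hb
  have ham : ∀ n, Measurable (a n) := by
    intro n
    have m2 : Measurable fun y : Fin k × Fin k → Ω =>
        ∑ p : Fin k × Fin k, c * ξ p.1 (σ n p (y p)) := by
      refine Finset.measurable_sum _ fun p _ => Measurable.const_mul ?_ _
      exact (hm p.1).comp (((hσ n p).measurable).comp (measurable_pi_apply p))
    exact ((Complex.measurable_ofReal.comp m2).mul_const _).cexp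
  have hbm : Measurable b := by
    have m2 : Measurable fun y : Fin k × Fin k → Ω =>
        ∑ p : Fin k × Fin k, c * ξ p.2 (y p) := by
      refine Finset.measurable_sum _ fun p _ => Measurable.const_mul ?_ _
      exact (hm p.2).comp (measurable_pi_apply p)
    exact ((Complex.measurable_ofReal.comp m2).mul_const _).cexp
  have hA := stepA τ σ hconv ξ hm c
  have hB := stepB hk hH g hgH (Measure.pi fun _ : Fin k × Fin k => μ) a ham hA
  -- reassociate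
  have hC : ∀ᵐ w ∂(μ.prod ((Measure.pi fun _ : Fin k => μ).prod
      (Measure.pi fun _ : Fin k × Fin k => μ))),
      Cv (fun n => Complex.exp (((∑ j, P2 g (w.1, w.2.1) (j, n) : ℝ) : ℂ) * Complex.I) *
        a n w.2.2) := by
    have h1 := ((measurePreserving_prodAssoc μ (Measure.pi fun _ : Fin k => μ)
      (Measure.pi fun _ : Fin k × Fin k => μ)).symm).quasiMeasurePreserving.ae hB
    exact h1
  have hD := Measure.ae_ae_of_ae_prod hC
  filter_upwards [hD] with x₀ hx₀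
  have hE : ∀ᵐ v ∂((Measure.pi fun _ : Fin k => μ).prod (Measure.pi fun _ : Fin k × Fin k => μ)),
      Cv (fun n => Complex.exp (((∑ j, P2 g (x₀, v.1) (j, n) : ℝ) : ℂ) * Complex.I) *
        (a n v.2 * b v.2)) := by
    filter_upwards [hx₀] with v hv
    have h1 := cv_smul (b v.2) hv
    convert h1 using 2 with n
    ring
  have hF := dct _ (fun n (v : (Fin k → Ω) × (Fin k × Fin k → Ω)) =>
    Complex.exp (((∑ j, P2 g (x₀, v.1) (j, n) : ℝ) : ℂ) * Complex.I) * (a n v.2 * b v.2))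
    (fun n => ?_) (fun n v => ?_) hE
  · -- the integral
    set K : ℝ := ∑ p : Fin k × Fin k, (1 / 2) * (B μ (ξ p.1) (ξ p.1) + B μ (ξ p.2) (ξ p.2)) with hK
    set L : ℝ := k * ∑ l, B μ (ξ l) (ξ l) with hL
    have h1 : ∀ n, ∫ v : (Fin k → Ω) × (Fin k × Fin k → Ω),
        Complex.exp (((∑ j, P2 g (x₀, v.1) (j, n) : ℝ) : ℂ) * Complex.I) * (a n v.2 * b v.2)
        ∂((Measure.pi fun _ : Fin k => μ).prod (Measure.pi fun _ : Fin k × Fin k => μ)) =
        Complex.exp ((-(1 / 2) * (L + K) : ℝ)) *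
          ∏ j, Complex.exp ((ξ j (τ n j x₀) : ℂ) * Complex.I) := by
      intro n
      rw [integral_prod_mul (fun x : Fin k → Ω =>
        Complex.exp (((∑ j, P2 g (x₀, x) (j, n) : ℝ) : ℂ) * Complex.I))
        (fun y => a n y * b y)]
      have e1 := int_fst hk hH τ hτ hτH ξ hξ n x₀
      have e2 := int_snd hH τ hτ hτH σ hσ hσH hστ ξ hξ n
      rw [hg, e1]
      simp only [ha, hb]
      rw [e2, prod_eI, mul_assoc, ← Complex.exp_add, mul_comm]
      congr 2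
      rw [← Complex.ofReal_add]
      congr 1
      ring
    simp_rw [h1] at hF
    have h2 := cv_smul (Complex.exp ((-(1 / 2) * (L + K) : ℝ)))⁻¹ hF
    convert h2 using 2 with n
    rw [← mul_assoc, inv_mul_cancel₀ (Complex.exp_ne_zero _), one_mul]
  · have m1 : Measurable fun v : (Fin k → Ω) × (Fin k × Fin k → Ω) =>
        ∑ j, P2 g (x₀, v.1) (j, n) := by
      refine Finset.measurable_sum _ fun j _ => ?_
      have m4 : ∀ l, Measurable fun v : (Fin k → Ω) × (Fin k × Fin k → Ω) => g (j, n) (v.1 l) :=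
        fun l => (hgm _).comp ((measurable_pi_apply l).comp measurable_fst)
      have m5 : Measurable fun v : (Fin k → Ω) × (Fin k × Fin k → Ω) => g (j, n) x₀ +
          Real.sqrt k * (g (j, n) (v.1 j) + (-(1 / (k : ℝ))) * ∑ l, g (j, n) (v.1 l)) :=
        (((m4 j).add ((Finset.measurable_sum _ fun l _ => m4 l).const_mul _)).const_mul _).const_add _
      exact m5
    have m2 : Measurable fun v : (Fin k → Ω) × (Fin k × Fin k → Ω) =>
        Complex.exp (((∑ j, P2 g (x₀, v.1) (j, n) : ℝ) : ℂ) * Complex.I) :=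
      ((Complex.measurable_ofReal.comp m1).mul_const Complex.I).cexp
    have m3 : Measurable fun v : (Fin k → Ω) × (Fin k × Fin k → Ω) => a n v.2 * b v.2 :=
      ((ham n).comp measurable_snd).mul (hbm.comp measurable_snd)
    exact m2.mul m3
  · rw [norm_mul, norm_mul, norm_eI, ha, hb]
    simp only
    rw [norm_eI, norm_eI]
    norm_num

end Pool.Agent.GAU
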