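import Mathlib

set_option autoImplicit false

/-! Universally good sequences for the pointwise ergodic theorem. -/

open Filter Topology MeasureTheory

namespace Pool.Agent.GAU

universe u

/-- `e : ℕ → ℤ^k` is universally good: for every measure preserving `ℤ^k`-action `A` on a
probability space and every bounded measurable `F` the averages `(1/N) ∑_{n=1}^N F (A (e n) z)`
converge almost everywhere. -/
def IsGood {k : ℕ} (e : ℕ → Fin k → ℤ) : Prop :=
  ∀ (Z : Type u) [MeasurableSpace Z] (ν : Measure Z) [IsProbabilityMeasure ν]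
    (A : (Fin k → ℤ) → Z → Z), (∀ z, A 0 z = z) → (∀ v w z, A (v + w) z = A v (A w z)) →
    (∀ v, MeasurePreserving (A v) ν ν) → ∀ F : Z → ℂ, Measurable F → (∃ C : ℝ, ∀ z, ‖F z‖ ≤ C) →
    ∀ᵐ z ∂ν, ∃ L : ℂ, Tendsto (fun N : ℕ => (1 / (N : ℂ)) * ∑ n ∈ Finset.Icc 1 N, F (A (e n) z))
      atTop (𝓝 L)

end Pool.Agent.GAU
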