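import Pool.Agent.GAU.Core

set_option autoImplicit false

/-! Density of the exponentials in `L¹` when the `σ`-algebra is generated by the subspace. -/

open Finset Filter Topology MeasureTheory ProbabilityTheory
open scoped NNReal ENNReal

namespace Pool.Agent.GAU

open Pool.Agent.CAM

variable {Ω : Type*}

/-- the joint map -/
def evH (H : Submodule ℝ (Ω → ℝ)) (x : Ω) : H → ℝ := fun ξ => ξ.1 x

/-- the exponentials -/
def Ex (H : Submodule ℝ (Ω → ℝ)) : Set (Ω → ℂ) :=
  Set.range (fun ξ : H => fun x => Complex.exp ((ξ.1 x : ℂ) * Complex.I))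

variable [MeasurableSpace Ω]

theorem evH_meas {H : Submodule ℝ (Ω → ℝ)} (hm : ∀ ξ ∈ H, Measurable ξ) : Measurable (evH H) :=
  measurable_pi_lambda _ fun ξ => hm _ ξ.2

theorem law_eq {H : Submodule ℝ (Ω → ℝ)} (hm : ∀ ξ ∈ H, Measurable ξ) (p q : Measure Ω)
    [IsFiniteMeasure p] [IsFiniteMeasure q]
    (h : ∀ ξ ∈ H, ∫ x, Complex.exp ((ξ x : ℂ) * Complex.I) ∂p =
      ∫ x, Complex.exp ((ξ x : ℂ) * Complex.I) ∂q) : p.map (evH H) = q.map (evH H) := by
  classical
  have hev := evH_meas hm
  refine IsProjectiveLimit.unique (P := fun I => (p.map (evH H)).map I.restrict)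
    (fun I => rfl) (fun I => ?_)
  have hmr : Measurable (I.restrict : (H → ℝ) → (I → ℝ)) := by fun_prop
  refine Measure.ext_of_charFunDual (funext fun L => ?_)
  rw [charFunDual_apply, charFunDual_apply]
  rw [integral_map hmr.aemeasurable (by fun_prop), integral_map hmr.aemeasurable (by fun_prop),
    integral_map hev.aemeasurable (by fun_prop), integral_map hev.aemeasurable (by fun_prop)]
  set a : I → ℝ := fun p => L (Pi.single p 1) with ha
  have hL : ∀ v : I → ℝ, L v = ∑ p, a p * v p := by
    intro v
    conv_lhs => rw [← Finset.univ_sum_single v]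
    rw [map_sum]
    refine sum_congr rfl fun p _ => ?_
    have h1 : (Pi.single p (v p) : I → ℝ) = v p • (Pi.single p 1 : I → ℝ) := by
      rw [← Pi.single_smul, smul_eq_mul, mul_one]
    rw [h1, map_smul, smul_eq_mul, ha, mul_comm]
  set η : Ω → ℝ := fun x => ∑ ξ : I, a ξ * ξ.1.1 x with hη
  have hηH : η ∈ H := by
    have h1 : η = ∑ ξ : I, a ξ • ξ.1.1 := by
      funext x
      rw [Finset.sum_apply]
      rfl
    rw [h1]
    exact H.sum_mem fun ξ _ => H.smul_mem _ ξ.1.2
  have h2 : ∀ x, L (I.restrict (evH H x)) = η x := by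
    intro x
    rw [hL]
    rfl
  simp_rw [h2]
  exact (h η hηH).symm

/-- the `σ`-algebra is generated by `H` -/
def Gen (H : Submodule ℝ (Ω → ℝ)) : Prop :=
  ∀ s : Set Ω, MeasurableSet s → ∃ t : Set (H → ℝ), MeasurableSet t ∧ evH H ⁻¹' t = s

theorem real_zero (μ : Measure Ω) [IsFiniteMeasure μ] {H : Submodule ℝ (Ω → ℝ)}
    (hm : ∀ ξ ∈ H, Measurable ξ) (hgen : Gen H) (u : Ω → ℝ) (hu : Measurable u)
    (hui : Integrable u μ)
    (h : ∀ ξ ∈ H, ∫ x, (u x : ℂ) * Complex.exp ((ξ x : ℂ) * Complex.I) ∂μ = 0) :
    u =ᵐ[μ] 0 := by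
  have hpm : Measurable fun x => ENNReal.ofReal (u x) := hu.ennreal_ofReal
  have hqm : Measurable fun x => ENNReal.ofReal (-u x) := hu.neg.ennreal_ofReal
  have hpf := isFiniteMeasure_withDensity_ofReal hui.2
  have hqf := isFiniteMeasure_withDensity_ofReal hui.neg.2
  simp only [Pi.neg_apply] at hqf
  have hlaw := law_eq hm (μ.withDensity fun x => ENNReal.ofReal (u x))
    (μ.withDensity fun x => ENNReal.ofReal (-u x)) (fun ξ hξ => by
      have hξm := hm ξ hξ
      rw [integral_withDensity_eq_integral_toReal_smul hpm (Eventually.of_forall fun x =>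
          ENNReal.ofReal_lt_top),
        integral_withDensity_eq_integral_toReal_smul hqm (Eventually.of_forall fun x =>
          ENNReal.ofReal_lt_top), ← sub_eq_zero, ← integral_sub]
      · rw [← h ξ hξ]
        congr 1
        funext x
        rw [← sub_smul]
        have h3 : (ENNReal.ofReal (u x)).toReal - (ENNReal.ofReal (-u x)).toReal = u x := by
          rcases le_total 0 (u x) with h0 | h0
          · rw [ENNReal.toReal_ofReal h0, ENNReal.ofReal_of_nonpos (by linarith)]
            simp
          · rw [ENNReal.toReal_ofReal (by linarith : 0 ≤ -u x), ENNReal.ofReal_of_nonpos h0]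
            simp
        rw [h3, Complex.real_smul]
      · have h4 : Integrable (fun x => (ENNReal.ofReal (u x)).toReal) μ := by
          refine hui.norm.mono (hpm.ennreal_toReal.aestronglyMeasurable)
            (Eventually.of_forall fun x => ?_)
          rw [Real.norm_of_nonneg ENNReal.toReal_nonneg, norm_norm, ENNReal.toReal_ofReal']
          exact max_le (le_abs_self _) (abs_nonneg _)
        refine h4.smul_of_top_left ?_
        exact memLp_top_of_bound (by fun_prop) 1 (Eventually.of_forall fun x => (norm_eI _).le)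
      · have h4 : Integrable (fun x => (ENNReal.ofReal (-u x)).toReal) μ := by
          refine hui.norm.mono (hqm.ennreal_toReal.aestronglyMeasurable)
            (Eventually.of_forall fun x => ?_)
          rw [Real.norm_of_nonneg ENNReal.toReal_nonneg, norm_norm, ENNReal.toReal_ofReal']
          exact max_le (neg_le_abs _) (abs_nonneg _)
        refine h4.smul_of_top_left ?_
        exact memLp_top_of_bound (by fun_prop) 1 (Eventually.of_forall fun x => (norm_eI _).le))
  have hpq : (μ.withDensity fun x => ENNReal.ofReal (u x)) =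
      (μ.withDensity fun x => ENNReal.ofReal (-u x)) := by
    refine Measure.ext fun s hs => ?_
    obtain ⟨t, ht, rfl⟩ := hgen s hs
    rw [← Measure.map_apply (evH_meas hm) ht, hlaw, Measure.map_apply (evH_meas hm) ht]
  have hfin : ∫⁻ x, ENNReal.ofReal (u x) ∂μ ≠ ∞ := by
    have := (measure_lt_top (μ.withDensity fun x => ENNReal.ofReal (u x)) Set.univ).ne
    rwa [withDensity_apply _ MeasurableSet.univ, Measure.restrict_univ] at this
  have h5 := (withDensity_eq_iff hpm.aemeasurable hqm.aemeasurable hfin).1 hpq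
  filter_upwards [h5] with x hx
  rcases le_total 0 (u x) with h0 | h0
  · rw [ENNReal.ofReal_of_nonpos (by linarith : -u x ≤ 0), ENNReal.ofReal_eq_zero] at hx
    exact le_antisymm hx h0
  · rw [ENNReal.ofReal_of_nonpos h0, eq_comm, ENNReal.ofReal_eq_zero] at hx
    exact le_antisymm h0 (by simpa using hx)

end Pool.Agent.GAU
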