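import Pool.Agent.GAU.Den

set_option autoImplicit false

/-! Density of the exponentials in `L¹` when the `σ`-algebra is generated by the subspace. -/

open Finset Filter Topology MeasureTheory ProbabilityTheory
open scoped NNReal ENNReal

namespace Pool.Agent.GAU

open Pool.Agent.CAM

variable {Ω : Type*} [MeasurableSpace Ω]

theorem cplx_zero (μ : Measure Ω) [IsFiniteMeasure μ] {H : Submodule ℝ (Ω → ℝ)}
    (hm : ∀ ξ ∈ H, Measurable ξ) (hgen : Gen H) (g : Ω → ℂ) (hg : Measurable g)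
    (hgi : Integrable g μ)
    (h : ∀ ξ ∈ H, ∫ x, g x * Complex.exp ((ξ x : ℂ) * Complex.I) ∂μ = 0) :
    g =ᵐ[μ] 0 := by
  have hbd : ∀ ξ ∈ H, MemLp (fun x => Complex.exp ((ξ x : ℂ) * Complex.I)) ∞ μ := fun ξ hξ => by
    have := hm ξ hξ
    exact memLp_top_of_bound (by fun_prop) 1 (Eventually.of_forall fun x => (norm_eI _).le)
  have hi : ∀ (f : Ω → ℂ), Integrable f μ → ∀ ξ ∈ H,
      Integrable (fun x => f x * Complex.exp ((ξ x : ℂ) * Complex.I)) μ := fun f hf ξ hξ =>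
    hf.mul_of_top_left (hbd ξ hξ)
  have hgc : Integrable (fun x => (starRingEnd ℂ) (g x)) μ := by
    refine hgi.norm.mono' (by fun_prop) (Eventually.of_forall fun x => ?_)
    rw [RCLike.norm_conj]
  have hconj : ∀ ξ ∈ H, ∫ x, (starRingEnd ℂ) (g x) * Complex.exp ((ξ x : ℂ) * Complex.I) ∂μ = 0 := by
    intro ξ hξ
    have h1 := h (-ξ) (H.neg_mem hξ)
    have h2 : ∫ x, (starRingEnd ℂ) (g x * Complex.exp (((-ξ) x : ℂ) * Complex.I)) ∂μ = 0 := by
      rw [integral_conj, h1, map_zero]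
    rw [← h2]
    congr 1
    funext x
    rw [map_mul, ← Complex.exp_conj]
    congr 2
    rw [map_mul, Complex.conj_ofReal, Complex.conj_I, Pi.neg_apply]
    push_cast
    ring
  have hre := real_zero μ hm hgen (fun x => (g x).re) (by fun_prop) hgi.re (fun ξ hξ => by
    have h1 : ∀ x, (((g x).re : ℝ) : ℂ) * Complex.exp ((ξ x : ℂ) * Complex.I) =
        (1 / 2) * (g x * Complex.exp ((ξ x : ℂ) * Complex.I) +
          (starRingEnd ℂ) (g x) * Complex.exp ((ξ x : ℂ) * Complex.I)) := by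
      intro x
      have h2 : (((g x).re : ℝ) : ℂ) = (1 / 2) * (g x + (starRingEnd ℂ) (g x)) := by
        rw [Complex.add_conj]
        push_cast
        ring
      rw [h2]
      ring
    simp_rw [h1]
    rw [integral_const_mul, integral_add (hi g hgi ξ hξ) (hi _ hgc ξ hξ), h ξ hξ, hconj ξ hξ]
    simp)
  have him := real_zero μ hm hgen (fun x => (g x).im) (by fun_prop) hgi.im (fun ξ hξ => by
    have h1 : ∀ x, (((g x).im : ℝ) : ℂ) * Complex.exp ((ξ x : ℂ) * Complex.I) =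
        (1 / (2 * Complex.I)) * (g x * Complex.exp ((ξ x : ℂ) * Complex.I) -
          (starRingEnd ℂ) (g x) * Complex.exp ((ξ x : ℂ) * Complex.I)) := by
      intro x
      have h2 : (((g x).im : ℝ) : ℂ) = (1 / (2 * Complex.I)) * (g x - (starRingEnd ℂ) (g x)) := by
        rw [Complex.sub_conj]
        have : Complex.I ≠ 0 := Complex.I_ne_zero
        field_simp
        push_cast
        ring
      rw [h2]
      ring
    simp_rw [h1]
    rw [integral_const_mul, integral_sub (hi g hgi ξ hξ) (hi _ hgc ξ hξ), h ξ hξ, hconj ξ hξ]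
    simp)
  filter_upwards [hre, him] with x h1 h2
  apply Complex.ext
  · simpa using h1
  · simpa using h2

/-- functions of `L²` a.e. equal to an element of the span -/
def Ks (μ : Measure Ω) (H : Submodule ℝ (Ω → ℝ)) : Submodule ℂ (Lp ℂ 2 μ) where
  carrier := {F | ∃ φ ∈ Submodule.span ℂ (Ex H), (F : Ω → ℂ) =ᵐ[μ] φ}
  add_mem' := by
    rintro F G ⟨φ, hφ, h1⟩ ⟨ψ, hψ, h2⟩
    refine ⟨φ + ψ, add_mem hφ hψ, (Lp.coeFn_add F G).trans (h1.add h2)⟩
  zero_mem' := ⟨0, zero_mem _, Lp.coeFn_zero _ _ _⟩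
  smul_mem' := by
    rintro c F ⟨φ, hφ, h1⟩
    refine ⟨c • φ, Submodule.smul_mem _ _ hφ, (Lp.coeFn_smul c F).trans ?_⟩
    filter_upwards [h1] with x hx
    simp only [Pi.smul_apply, hx]

theorem simple_approx (μ : Measure Ω) [IsProbabilityMeasure μ] (f : Ω → ℂ) (hf : Measurable f)
    (hfi : Integrable f μ) (ε : ℝ) (hε : 0 < ε) : ∃ f₁ : Ω → ℂ, Measurable f₁ ∧
      (∃ C : ℝ, ∀ x, ‖f₁ x‖ ≤ C) ∧ ∫ x, ‖f x - f₁ x‖ ∂μ ≤ ε := by
  obtain ⟨f₁, hf₁, -⟩ := (memLp_one_iff_integrable.2 hfi).exists_simpleFunc_eLpNorm_sub_lt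
    (by simp) (ε := ENNReal.ofReal ε) (by simpa using hε)
  refine ⟨fun x => f₁ x, f₁.measurable, f₁.exists_forall_norm_le, ?_⟩
  have h2 : ∫ x, ‖f x - f₁ x‖ ∂μ = (∫⁻ x, ‖f x - f₁ x‖ₑ ∂μ).toReal :=
    integral_norm_eq_lintegral_enorm (hf.sub f₁.measurable).aestronglyMeasurable
  rw [eLpNorm_one_eq_lintegral_enorm] at hf₁
  rw [h2]
  exact ENNReal.toReal_le_of_le_ofReal hε.le hf₁.le

theorem dens (μ : Measure Ω) [IsProbabilityMeasure μ] {H : Submodule ℝ (Ω → ℝ)}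
    (hm : ∀ ξ ∈ H, Measurable ξ) (hgen : Gen H) (f : Ω → ℂ) (hf : Measurable f)
    (hfi : Integrable f μ) (ε : ℝ) (hε : 0 < ε) :
    ∃ g ∈ Submodule.span ℂ (Ex H), ∫ x, ‖f x - g x‖ ∂μ ≤ ε := by
  -- first approximation
  obtain ⟨f₁, hf₁m, ⟨C, hC⟩, he1⟩ := simple_approx μ f hf hfi (ε / 2) (half_pos hε)
  have hf₁L : ∀ p, MemLp f₁ p μ := fun p =>
    MemLp.of_bound hf₁m.aestronglyMeasurable C (Eventually.of_forall hC)
  have hf₁i : Integrable f₁ μ := memLp_one_iff_integrable.1 (hf₁L 1)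
  -- the orthogonal complement is trivial
  have hexpL : ∀ ξ ∈ H, MemLp (fun x => Complex.exp ((ξ x : ℂ) * Complex.I)) 2 μ := fun ξ hξ => by
    have := hm ξ hξ
    exact MemLp.of_bound (by fun_prop) 1 (Eventually.of_forall fun x => (norm_eI _).le)
  have hperp : (Ks μ H)ᗮ = ⊥ := by
    rw [Submodule.eq_bot_iff]
    intro G hG
    have h0 : ∀ ξ ∈ H, ∫ x, G x * Complex.exp ((ξ x : ℂ) * Complex.I) ∂μ = 0 := by
      intro ξ hξ
      have hneg : -ξ ∈ H := H.neg_mem hξ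
      have h1 : (hexpL (-ξ) hneg).toLp _ ∈ Ks μ H :=
        ⟨_, Submodule.subset_span ⟨⟨-ξ, hneg⟩, rfl⟩, MemLp.coeFn_toLp _⟩
      have h2 := (Submodule.mem_orthogonal _ _).1 hG _ h1
      rw [L2.inner_def] at h2
      rw [← h2]
      refine integral_congr_ae ?_
      filter_upwards [(hexpL (-ξ) hneg).coeFn_toLp] with x hx
      rw [hx, RCLike.inner_apply, ← Complex.exp_conj]
      congr 2
      rw [map_mul, Complex.conj_ofReal, Complex.conj_I, Pi.neg_apply]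
      push_cast
      ring
    have h3 := cplx_zero μ hm hgen G (Lp.stronglyMeasurable G).measurable
      ((Lp.memLp G).integrable (by norm_num)) h0
    rw [Lp.ext_iff]
    exact h3.trans (Lp.coeFn_zero _ _ _).symm
  have htop : (Ks μ H).topologicalClosure = ⊤ :=
    (Submodule.topologicalClosure_eq_top_iff).2 hperp
  have hmem : (hf₁L 2).toLp f₁ ∈ closure ((Ks μ H : Submodule ℂ (Lp ℂ 2 μ)) : Set (Lp ℂ 2 μ)) := by
    rw [← Submodule.topologicalClosure_coe, htop]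
    trivial
  obtain ⟨G, ⟨φ, hφ, hGφ⟩, hd⟩ := Metric.mem_closure_iff.1 hmem (ε / 2) (half_pos hε)
  refine ⟨φ, hφ, ?_⟩
  have hGi : Integrable (G : Ω → ℂ) μ := (Lp.memLp G).integrable (by norm_num)
  have hφi : Integrable φ μ := hGi.congr hGφ
  have he2 : ∫ x, ‖f₁ x - φ x‖ ∂μ ≤ ε / 2 := by
    have h1 : ∫ x, ‖f₁ x - φ x‖ ∂μ = ∫ x, ‖(((hf₁L 2).toLp f₁ - G : Lp ℂ 2 μ) : Ω → ℂ) x‖ ∂μ := by
      refine integral_congr_ae ?_
      filter_upwards [(hf₁L 2).coeFn_toLp, hGφ, Lp.coeFn_sub ((hf₁L 2).toLp f₁) G] with x h1 h2 h3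
      rw [h3, Pi.sub_apply, h1, h2]
    rw [h1]
    set D := ((hf₁L 2).toLp f₁ - G : Lp ℂ 2 μ) with hD
    have h4 : eLpNorm D 1 μ ≤ eLpNorm D 2 μ :=
      eLpNorm_le_eLpNorm_of_exponent_le (by norm_num) (Lp.memLp D).aestronglyMeasurable
    have h5 : ∫ x, ‖D x‖ ∂μ = (eLpNorm D 1 μ).toReal := by
      rw [eLpNorm_one_eq_lintegral_enorm, integral_norm_eq_lintegral_enorm
        (Lp.memLp D).aestronglyMeasurable]
    have h6 : ∫ x, ‖D x‖ ∂μ ≤ ‖D‖ := by
      rw [h5, Lp.norm_def]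
      exact ENNReal.toReal_mono (Lp.memLp D).eLpNorm_ne_top h4
    refine h6.trans ?_
    rw [hD, ← dist_eq_norm]
    exact hd.le
  calc ∫ x, ‖f x - φ x‖ ∂μ ≤ ∫ x, (‖f x - f₁ x‖ + ‖f₁ x - φ x‖) ∂μ := by
        refine integral_mono (hfi.sub hφi).norm ((hfi.sub hf₁i).norm.add (hf₁i.sub hφi).norm) ?_
        intro x
        calc ‖f x - φ x‖ = ‖(f x - f₁ x) + (f₁ x - φ x)‖ := by congr 1; ring
          _ ≤ _ := norm_add_le _ _
    _ = ∫ x, ‖f x - f₁ x‖ ∂μ + ∫ x, ‖f₁ x - φ x‖ ∂μ :=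
        integral_add (hfi.sub hf₁i).norm (hf₁i.sub hφi).norm
    _ ≤ ε := by linarith

end Pool.Agent.GAU
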