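import Pool.Agent.GAU.CoreB
import Pool.Agent.GAU.DenB
import Pool.Agent.GAU.Clos
import Pool.Agent.GAU.Defs

set_option autoImplicit false

/-! The theorem for Gaussian actions. -/

open Finset Filter Topology MeasureTheory ProbabilityTheory
open scoped NNReal ENNReal

namespace Pool.Agent.GAU

open Pool.Agent.CAM

universe u

theorem icc_cv (s : ℕ → ℂ) : (∃ L : ℂ, Tendsto (fun N : ℕ => (1 / (N : ℂ)) *
    ∑ n ∈ Finset.Icc 1 N, s n) atTop (𝓝 L)) ↔ Cv (fun n => s (n + 1)) := by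
  have h1 : ∀ N : ℕ, ∑ n ∈ Finset.Icc 1 N, s n = ∑ n ∈ Finset.range N, s (n + 1) := by
    intro N
    rw [Finset.range_eq_Ico, Finset.sum_Ico_add' (fun n : ℕ => s n) 0 N 1]
    rfl
  unfold Cv ces
  simp_rw [h1]

section good

variable {Ω : Type u} [MeasurableSpace Ω]

/-- measure preserving maps which preserve `K` -/
def Good (μ : Measure Ω) (K : Submodule ℝ (Ω → ℝ)) (g : Equiv.Perm Ω) : Prop :=
  MeasurePreserving g μ μ ∧ ∀ η ∈ K, (fun x => η (g x)) ∈ K

variable {μ : Measure Ω} {K : Submodule ℝ (Ω → ℝ)} {g h : Equiv.Perm Ω}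

theorem Good.one : Good μ K 1 := ⟨MeasurePreserving.id μ, fun _ h => h⟩

theorem Good.mul (hg : Good μ K g) (hh : Good μ K h) : Good μ K (g * h) :=
  ⟨hg.1.comp hh.1, fun η hη => hh.2 _ (hg.2 η hη)⟩

theorem Good.pow (hg : Good μ K g) (n : ℕ) : Good μ K (g ^ n) := by
  induction n with
  | zero => rw [pow_zero]; exact Good.one
  | succ n ih => rw [pow_succ]; exact ih.mul hg

theorem Good.zpow (hg : Good μ K g) (hg' : Good μ K g⁻¹) (n : ℤ) : Good μ K (g ^ n) := by
  obtain ⟨m, rfl | rfl⟩ := n.eq_nat_or_neg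
  · rw [zpow_natCast]
    exact hg.pow m
  · rw [zpow_neg, zpow_natCast, ← inv_pow]
    exact hg'.pow m

end good

/-- the maps `T i` and their inverses preserve `μ` and `H`, and they commute -/
structure GA {Ω : Type u} [MeasurableSpace Ω] (μ : Measure Ω) {k : ℕ} (T : Fin k → Equiv.Perm Ω)
    (H : Submodule ℝ (Ω → ℝ)) : Prop where
  g1 : ∀ i, Good μ H (T i)
  g2 : ∀ i, Good μ H (T i)⁻¹
  comm : ∀ i j, Commute (T i) (T j)

section one

variable {Ω : Type u} [MeasurableSpace Ω] {μ : Measure Ω}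

theorem GA.z {k : ℕ} {T : Fin k → Equiv.Perm Ω} {H : Submodule ℝ (Ω → ℝ)} (h : GA μ T H)
    (i : Fin k) (n : ℤ) : Good μ H (T i ^ n) := (h.g1 i).zpow (h.g2 i) n

theorem GA.zi {k : ℕ} {T : Fin k → Equiv.Perm Ω} {H : Submodule ℝ (Ω → ℝ)} (h : GA μ T H)
    (i : Fin k) (n : ℤ) : Good μ H (T i ^ n)⁻¹ := by
  rw [← zpow_neg]
  exact h.z i (-n)

theorem gen_one (μ : Measure Ω) [IsProbabilityMeasure μ] {k : ℕ} (T : Fin k → Equiv.Perm Ω)
    {H : Submodule ℝ (Ω → ℝ)} (hT : GA μ T H) (hH : ∀ ξ ∈ H, IsG μ ξ)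
    (hgen : Gen H) (e : ℕ → Fin k → ℤ) (he : IsGood.{u} e) (f : Fin k → Ω → ℂ)
    (hf : ∀ i, Measurable (f i)) (hb : ∀ i, ∃ C : ℝ, ∀ x, ‖f i x‖ ≤ C) :
    ∀ᵐ x ∂μ, Cv (fun n => ∏ i, f i ((T i ^ e (n + 1) i) x)) := by
  rcases Nat.eq_zero_or_pos k with rfl | hk
  · refine Eventually.of_forall fun x => ?_
    simpa using cv_const 1
  refine multU μ (fun n i => (T i ^ e (n + 1) i : Equiv.Perm Ω)) (fun n i => (hT.z i _).1) ?_
    (Ex H) ?_ ?_ ?_ ?_ f hf hb
  · -- averages of one function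
    intro i D hD hDb
    have h1 := he Ω μ (fun v => (T i ^ v i : Equiv.Perm Ω)) (fun z => by simp)
      (fun v w z => by
        rw [Pi.add_apply, zpow_add]
        rfl) (fun v => (hT.z i _).1) D hD hDb
    filter_upwards [h1] with x hx
    exact (icc_cv (fun n => D ((T i ^ e n i) x))).1 hx
  · rintro φ ⟨ξ, rfl⟩
    have := (hH ξ.1 ξ.2).1
    fun_prop
  · rintro φ ⟨ξ, rfl⟩
    exact ⟨1, fun x => (norm_eI _).le⟩
  · intro f hf hfi ε hε
    exact dens μ (fun ξ hξ => (hH ξ hξ).1) hgen f hf hfi ε hε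
  · intro φ hφ
    choose ξ hξ using hφ
    -- the maps on the pairs
    have hσ : ∀ (v : Fin k → ℤ) (p : Fin k × Fin k),
        Good μ H (T p.1 ^ v p.1 * (T p.2 ^ v p.2)⁻¹) := fun v p =>
      (hT.z p.1 _).mul (hT.zi p.2 _)
    have hconv : ∀ F : (Fin k → Ω) × (Fin k × Fin k → Ω) → ℂ, Measurable F → (∀ w, ‖F w‖ ≤ 1) →
        ∀ᵐ w ∂((Measure.pi fun _ : Fin k => μ).prod (Measure.pi fun _ : Fin k × Fin k => μ)),
          Cv (fun n => F (fun j => (T j ^ e (n + 1) j) (w.1 j),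
            fun p => (T p.1 ^ e (n + 1) p.1 * (T p.2 ^ e (n + 1) p.2)⁻¹) (w.2 p))) := by
      intro F hF hFb
      have h1 := he ((Fin k → Ω) × (Fin k × Fin k → Ω))
        ((Measure.pi fun _ : Fin k => μ).prod (Measure.pi fun _ : Fin k × Fin k => μ))
        (fun v w => (fun j => (T j ^ v j) (w.1 j),
          fun p => (T p.1 ^ v p.1 * (T p.2 ^ v p.2)⁻¹) (w.2 p)))
        (fun z => by simp)
        (fun v w z => by
          refine Prod.ext ?_ ?_
          · funext j
            simp only [Pi.add_apply]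
            rw [zpow_add]
            rfl
          · funext p
            simp only [Pi.add_apply]
            have hc1 : Commute (T p.1 ^ w p.1) (T p.2 ^ v p.2)⁻¹ :=
              ((hT.comm p.1 p.2).zpow_zpow _ _).inv_right
            have h2 : T p.1 ^ (v p.1 + w p.1) * (T p.2 ^ (v p.2 + w p.2))⁻¹ =
                (T p.1 ^ v p.1 * (T p.2 ^ v p.2)⁻¹) * (T p.1 ^ w p.1 * (T p.2 ^ w p.2)⁻¹) := by
              rw [zpow_add, zpow_add, mul_inv_rev, mul_assoc, mul_assoc]
              congr 1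
              rw [← mul_assoc, ← mul_assoc, ← hc1.eq, mul_assoc, mul_assoc]
              congr 1
              rw [← zpow_neg, ← zpow_neg]
              exact ((Commute.refl (T p.2)).zpow_zpow _ _).eq
            rw [h2]
            rfl)
        (fun v => (measurePreserving_pi _ _ fun j => (hT.z j (v j)).1).prod
          (measurePreserving_pi _ _ fun p => (hσ v p).1)) F hF ⟨1, hFb⟩
      filter_upwards [h1] with w hw
      exact (icc_cv (fun n => F (fun j => (T j ^ e n j) (w.1 j),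
            fun p => (T p.1 ^ e n p.1 * (T p.2 ^ e n p.2)⁻¹) (w.2 p)))).1 hw
    have h1 := core (μ := μ) hk hH (fun n i => (T i ^ e (n + 1) i : Equiv.Perm Ω))
      (fun n i => (hT.z i _).1) (fun n i => (hT.z i _).2)
      (fun n p => (T p.1 ^ e (n + 1) p.1 * (T p.2 ^ e (n + 1) p.2)⁻¹ : Equiv.Perm Ω))
      (fun n p => (hσ _ p).1) (fun n p => (hσ _ p).2)
      (fun n p x => by
        rw [← Equiv.Perm.mul_apply, inv_mul_cancel_right])
      hconv (fun j => (ξ j).1) (fun j => (ξ j).2)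
    filter_upwards [h1] with x hx
    have h2 : (fun n => ∏ i, φ i ((T i ^ e (n + 1) i) x)) =
        fun n => ∏ j, Complex.exp (((ξ j).1 ((T j ^ e (n + 1) j) x) : ℂ) * Complex.I) := by
      funext n
      refine Finset.prod_congr rfl fun i _ => ?_
      rw [← hξ i]
    rw [h2]
    exact hx

end one

theorem trim_mp {Ω : Type u} {m0 : MeasurableSpace Ω} (μ : Measure Ω) {H : Submodule ℝ (Ω → ℝ)}
    (hm : MeasurableSpace.comap (evH H) inferInstance ≤ m0) (T : Ω → Ω)
    (hT : MeasurePreserving T μ μ) (hTH : ∀ ξ ∈ H, (fun x => ξ (T x)) ∈ H) :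
    @MeasurePreserving Ω Ω (MeasurableSpace.comap (evH H) inferInstance)
      (MeasurableSpace.comap (evH H) inferInstance) T (μ.trim hm) (μ.trim hm) := by
  have hTm : Measurable[MeasurableSpace.comap (evH H) inferInstance,
      MeasurableSpace.comap (evH H) inferInstance] T := by
    rw [measurable_comap_iff]
    have h1 : evH H ∘ T = (fun (ω : H → ℝ) (ξ : H) => ω ⟨fun x => ξ.1 (T x), hTH _ ξ.2⟩) ∘ evH H := by
      funext x ξ
      rfl
    rw [h1]
    refine Measurable.comp ?_ (comap_measurable (evH H))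
    exact measurable_pi_lambda _ fun ξ => measurable_pi_apply _
  refine @MeasurePreserving.mk Ω Ω (MeasurableSpace.comap (evH H) inferInstance)
      (MeasurableSpace.comap (evH H) inferInstance) T (μ.trim hm) (μ.trim hm) hTm ?_
  refine @Measure.ext Ω (MeasurableSpace.comap (evH H) inferInstance) _ _ fun s hs => ?_
  rw [Measure.map_apply hTm hs, trim_measurableSet_eq hm hs, trim_measurableSet_eq hm (hTm hs)]
  exact hT.measure_preimage (hm s hs).nullMeasurableSet

theorem fin_H {Ω : Type u} [m0 : MeasurableSpace Ω] (μ : Measure Ω) [IsProbabilityMeasure μ] {k : ℕ}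
    (T : Fin k → Equiv.Perm Ω) {H : Submodule ℝ (Ω → ℝ)} (hT : GA μ T H)
    (hH : ∀ ξ ∈ H, IsG μ ξ) (e : ℕ → Fin k → ℤ) (he : IsGood.{u} e) (F : Fin k → (H → ℝ) → ℂ)
    (hF : ∀ i, Measurable (F i)) (hb : ∀ i, ∃ C : ℝ, ∀ x, ‖F i (evH H x)‖ ≤ C) :
    ∀ᵐ x ∂μ, Cv (fun n => ∏ i, F i (evH H ((T i ^ e (n + 1) i) x))) := by
  have hm : MeasurableSpace.comap (evH H) inferInstance ≤ m0 :=
    (evH_meas fun ξ hξ => (hH ξ hξ).1).comap_le
  refine ae_of_ae_trim hm ?_
  have hprob : @IsProbabilityMeasure Ω (MeasurableSpace.comap (evH H) inferInstance) (μ.trim hm) :=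
    @IsProbabilityMeasure.mk Ω (MeasurableSpace.comap (evH H) inferInstance) (μ.trim hm) (by
      rw [trim_measurableSet_eq hm (@MeasurableSet.univ Ω (MeasurableSpace.comap (evH H) inferInstance))]
      exact measure_univ)
  refine @gen_one Ω (MeasurableSpace.comap (evH H) inferInstance) (μ.trim hm) hprob k T H
    (@GA.mk Ω (MeasurableSpace.comap (evH H) inferInstance) (μ.trim hm) k T H
      (fun i => ⟨trim_mp μ hm _ (hT.g1 i).1 (hT.g1 i).2, (hT.g1 i).2⟩)
      (fun i => ⟨trim_mp μ hm _ (hT.g2 i).1 (hT.g2 i).2, (hT.g2 i).2⟩) hT.comm)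
    ?_ ?_ e he (fun i x => F i (evH H x)) ?_ hb
  · intro ξ hξ
    have hξm : Measurable[MeasurableSpace.comap (evH H) inferInstance] ξ :=
      (measurable_pi_apply (⟨ξ, hξ⟩ : H)).comp (comap_measurable (evH H))
    obtain ⟨h1, v, hv⟩ := hH ξ hξ
    refine ⟨hξm, v, ?_⟩
    rw [← hv]
    refine Measure.ext fun s hs => ?_
    rw [Measure.map_apply hξm hs, Measure.map_apply h1 hs, trim_measurableSet_eq hm (hξm hs)]
  · intro s hs
    exact hs
  · intro i
    exact (hF i).comp (comap_measurable (evH H))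

end Pool.Agent.GAU
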