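import Pool.Agent.GAU.Fin

set_option autoImplicit false

/-! The theorem for Gaussian actions: linear polynomials, almost everywhere invariance. -/

open Finset Filter Topology MeasureTheory ProbabilityTheory
open scoped NNReal ENNReal

namespace Pool.Agent.GAU

open Pool.Agent.CAM

universe u

variable {Ω : Type u} [MeasurableSpace Ω]

/-- the measurable functions which are a.e. equal to an element of `H` -/
def sat (μ : Measure Ω) (H : Submodule ℝ (Ω → ℝ)) : Submodule ℝ (Ω → ℝ) where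
  carrier := {η | Measurable η ∧ ∃ ξ ∈ H, η =ᵐ[μ] ξ}
  add_mem' := by
    rintro η η' ⟨h1, ξ, hξ, h2⟩ ⟨h1', ξ', hξ', h2'⟩
    exact ⟨h1.add h1', ξ + ξ', H.add_mem hξ hξ', h2.add h2'⟩
  zero_mem' := ⟨measurable_zero, 0, H.zero_mem, EventuallyEq.rfl⟩
  smul_mem' := by
    rintro c η ⟨h1, ξ, hξ, h2⟩
    exact ⟨h1.const_smul c, c • ξ, H.smul_mem c hξ, h2.const_smul c⟩

open Classical in
/-- truncation -/
noncomputable def trc (C : ℝ) (z : ℂ) : ℂ := if ‖z‖ ≤ C then z else 0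

theorem trc_meas (C : ℝ) : Measurable (trc C) := by
  classical
  unfold trc
  exact Measurable.ite (measurableSet_le measurable_norm measurable_const) measurable_id
    measurable_const

theorem trc_le {C : ℝ} (z : ℂ) : ‖trc C z‖ ≤ max C 0 := by
  unfold trc
  split_ifs with h
  · exact h.trans (le_max_left _ _)
  · rw [norm_zero]
    exact le_max_right _ _

theorem trc_eq {C : ℝ} {z : ℂ} (h : ‖z‖ ≤ C) : trc C z = z := if_pos h

theorem lin_good {k : ℕ} (p : Fin k → Polynomial ℤ) (hp : ∀ i, (p i).natDegree ≤ 1) :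
    IsGood.{u} (fun n i => (p i).eval (n : ℤ)) := by
  intro Z _ ν _ A h0 hadd hmp F hF hFb
  set a : Fin k → ℤ := fun i => (p i).coeff 1 with ha
  set b : Fin k → ℤ := fun i => (p i).coeff 0 + (p i).coeff 1 with hbdef
  have hev : ∀ i (n : ℕ), (p i).eval ((n + 1 : ℕ) : ℤ) = a i * n + b i := by
    intro i n
    rw [Polynomial.eval_eq_sum_range' (Nat.lt_succ_of_le (hp i)), Finset.sum_range_succ,
      Finset.sum_range_one]
    simp only [ha, hbdef]
    push_cast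
    ring
  obtain ⟨C, hC⟩ := hFb
  have hit : ∀ (n : ℕ) (z : Z), (A a)^[n] z = A (fun i => a i * n) z := by
    intro n
    induction n with
    | zero =>
      intro z
      have : (fun i => a i * ((0 : ℕ) : ℤ)) = (0 : Fin k → ℤ) := by
        funext i
        simp
      rw [this, h0]
      rfl
    | succ n ih =>
      intro z
      rw [Function.iterate_succ_apply, ih, ← hadd]
      congr 1
      funext i
      simp only [Pi.add_apply]
      push_cast
      ring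
  have h1 := birk ν (A a) (hmp a) F hF C hC
  have h2 := (hmp b).quasiMeasurePreserving.ae h1
  filter_upwards [h2] with z hz
  rw [icc_cv (fun n => F (A (fun i => (p i).eval (n : ℤ)) z))]
  have h3 : (fun n => F (A (fun i => (p i).eval ((n + 1 : ℕ) : ℤ)) z)) =
      fun n => F ((A a)^[n] (A b z)) := by
    funext n
    rw [hit n, ← hadd]
    congr 2
    funext i
    rw [hev i n]
    rfl
  rw [h3]
  exact hz

theorem fin_main {Ω : Type u} [MeasurableSpace Ω] (μ : Measure Ω) [IsProbabilityMeasure μ] {k : ℕ}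
    (T : Fin k → Equiv.Perm Ω) (hT : ∀ i, MeasurePreserving (T i) μ μ)
    (hT' : ∀ i, Measurable (T i).symm) (hcomm : ∀ i j, T i * T j = T j * T i)
    (H : Submodule ℝ (Ω → ℝ))
    (hH : ∀ ξ ∈ H, Measurable ξ ∧ ∃ v : ℝ≥0, μ.map ξ = gaussianReal 0 v)
    (hTH : ∀ i, ∀ ξ ∈ H, ∃ η ∈ H, (fun x => ξ (T i x)) =ᵐ[μ] η)
    (hTH' : ∀ i, ∀ ξ ∈ H, ∃ η ∈ H, (fun x => ξ ((T i).symm x)) =ᵐ[μ] η)
    (e : ℕ → Fin k → ℤ) (he : IsGood.{u} e) (f : Fin k → Ω → ℂ)
    (hf : ∀ i, ∃ F : (H → ℝ) → ℂ, Measurable F ∧ f i =ᵐ[μ] fun x => F (fun ξ => ξ.1 x))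
    (hb : ∀ i, ∃ C : ℝ, ∀ᵐ x ∂μ, ‖f i x‖ ≤ C) :
    ∀ᵐ x ∂μ, ∃ L : ℂ, Tendsto (fun N : ℕ => (1 / (N : ℂ)) * ∑ n ∈ Finset.Icc 1 N,
      ∏ i, f i ((T i ^ e n i) x)) atTop (𝓝 L) := by
  classical
  have hTs : ∀ i, MeasurePreserving (T i).symm μ μ := fun i =>
    MeasurePreserving.symm (⟨T i, (hT i).measurable, hT' i⟩ : Ω ≃ᵐ Ω) (hT i)
  set K := sat μ H with hK
  have hKG : ∀ η ∈ K, IsG μ η := by
    rintro η ⟨h1, ξ, hξ, h2⟩
    obtain ⟨-, v, hv⟩ := hH ξ hξ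
    exact ⟨h1, v, by rw [Measure.map_congr h2, hv]⟩
  have hHK : ∀ ξ ∈ H, ξ ∈ K := fun ξ hξ => ⟨(hH ξ hξ).1, ξ, hξ, EventuallyEq.rfl⟩
  have hgood : ∀ g : Equiv.Perm Ω, MeasurePreserving g μ μ →
      (∀ ξ ∈ H, ∃ η ∈ H, (fun x => ξ (g x)) =ᵐ[μ] η) → Good μ K g := by
    intro g hg hgH
    refine ⟨hg, ?_⟩
    rintro η ⟨h1, ξ, hξ, h2⟩
    obtain ⟨ξ', hξ', h3⟩ := hgH ξ hξ
    refine ⟨h1.comp hg.measurable, ξ', hξ', ?_⟩
    have h4 : (fun x => η (g x)) =ᵐ[μ] fun x => ξ (g x) := hg.quasiMeasurePreserving.ae_eq h2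
    exact h4.trans h3
  have hGA : GA μ T K := ⟨fun i => hgood _ (hT i) (hTH i), fun i => hgood _ (hTs i) (hTH' i),
    fun i j => hcomm i j⟩
  choose F hF hfF using hf
  choose C hC using hb
  have hmain := fin_H μ T hGA hKG e he
    (fun i ω => trc (C i) (F i (fun ξ : H => ω ⟨ξ.1, hHK ξ.1 ξ.2⟩)))
    (fun i => (trc_meas _).comp ((hF i).comp
      (measurable_pi_lambda _ fun ξ => measurable_pi_apply _)))
    (fun i => ⟨max (C i) 0, fun x => trc_le _⟩)
  have hae : ∀ᵐ x ∂μ, ∀ i, ∀ n : ℤ, f i ((T i ^ n) x) =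
      trc (C i) (F i (fun ξ : H => ξ.1 ((T i ^ n) x))) := by
    rw [ae_all_iff]
    intro i
    rw [ae_all_iff]
    intro n
    have h1 : ∀ᵐ x ∂μ, f i x = trc (C i) (F i (fun ξ : H => ξ.1 x)) := by
      filter_upwards [hfF i, hC i] with x h1 h2
      rw [← h1, trc_eq h2]
    exact (hGA.z i n).1.quasiMeasurePreserving.ae h1
  filter_upwards [hmain, hae] with x hx hx2
  rw [icc_cv (fun n => ∏ i, f i ((T i ^ e n i) x))]
  have h3 : (fun n => ∏ i, f i ((T i ^ e (n + 1) i) x)) = fun n => ∏ i,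
      trc (C i) (F i (fun ξ : H => evH K ((T i ^ e (n + 1) i) x) ⟨ξ.1, hHK ξ.1 ξ.2⟩)) := by
    funext n
    refine Finset.prod_congr rfl fun i _ => ?_
    rw [hx2 i]
    rfl
  rw [h3]
  exact hx

end Pool.Agent.GAU
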