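import Pool.Agent.GAU.Birk

set_option autoImplicit false

/-! Centred Gaussian functions: characteristic function, the covariance form, products. -/

open Finset Filter Topology MeasureTheory ProbabilityTheory
open scoped NNReal ENNReal

namespace Pool.Agent.GAU

open Pool.Agent.CAM

variable {Ω : Type*} [MeasurableSpace Ω]

/-- `ξ` is measurable and has a centred normal distribution (possibly degenerate) -/
def IsG (μ : Measure Ω) (ξ : Ω → ℝ) : Prop := Measurable ξ ∧ ∃ v : ℝ≥0, μ.map ξ = gaussianReal 0 v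

/-- the covariance form -/
noncomputable def B (μ : Measure Ω) (u v : Ω → ℝ) : ℝ := ∫ x, u x * v x ∂μ

theorem IsG.memLp {μ : Measure Ω} {ξ : Ω → ℝ} (h : IsG μ ξ) : MemLp ξ 2 μ := by
  obtain ⟨hm, v, hv⟩ := h
  have h1 : MemLp id 2 (μ.map ξ) := by
    rw [hv]
    exact memLp_id_gaussianReal 2
  have h2 := (memLp_map_measure_iff (by fun_prop) hm.aemeasurable).1 h1
  simpa using h2

theorem IsG.char {μ : Measure Ω} {ξ : Ω → ℝ} (h : IsG μ ξ) :
    ∫ x, Complex.exp (ξ x * Complex.I) ∂μ = Complex.exp ((-(1 / 2) * B μ ξ ξ : ℝ)) := by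
  obtain ⟨hm, v, hv⟩ := h
  have h1 : ∫ x, Complex.exp (ξ x * Complex.I) ∂μ = charFun (μ.map ξ) 1 := by
    rw [charFun_apply_real, integral_map hm.aemeasurable (by fun_prop)]
    simp
  have h2 : B μ ξ ξ = v := by
    have h3 : ∫ y, y * y ∂(μ.map ξ) = ∫ x, ξ x * ξ x ∂μ :=
      integral_map hm.aemeasurable (by fun_prop)
    rw [B, ← h3, hv]
    have h4 := variance_id_gaussianReal (μ := 0) (v := v)
    rw [variance_eq_sub (memLp_id_gaussianReal 2)] at h4
    simpa [integral_id_gaussianReal, sq] using h4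
  rw [h1, hv, charFun_gaussianReal, h2]
  congr 1
  push_cast
  ring

theorem B_sum {μ : Measure Ω} {ι κ : Type*} (s : Finset ι) (t : Finset κ) (u : ι → Ω → ℝ)
    (w : κ → Ω → ℝ) (hu : ∀ i ∈ s, MemLp (u i) 2 μ) (hw : ∀ j ∈ t, MemLp (w j) 2 μ) :
    B μ (fun x => ∑ i ∈ s, u i x) (fun x => ∑ j ∈ t, w j x) = ∑ i ∈ s, ∑ j ∈ t, B μ (u i) (w j) := by
  unfold B
  simp_rw [sum_mul_sum]
  rw [integral_finsetSum]
  · refine sum_congr rfl fun i hi => ?_
    rw [integral_finsetSum]
    intro j hj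
    exact (hu i hi).integrable_mul (hw j hj)
  · intro i hi
    refine integrable_finsetSum _ fun j hj => ?_
    exact (hu i hi).integrable_mul (hw j hj)

theorem B_smul_left (μ : Measure Ω) (c : ℝ) (u v : Ω → ℝ) :
    B μ (fun x => c * u x) v = c * B μ u v := by
  unfold B
  rw [← integral_const_mul]
  congr 1
  funext x
  ring

theorem B_comm (μ : Measure Ω) (u v : Ω → ℝ) : B μ u v = B μ v u := by
  unfold B
  congr 1
  funext x
  ring

theorem B_smul_right (μ : Measure Ω) (c : ℝ) (u v : Ω → ℝ) :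
    B μ u (fun x => c * v x) = c * B μ u v := by
  rw [B_comm, B_smul_left, B_comm]

theorem B_add_left {μ : Measure Ω} {u u' v : Ω → ℝ} (hu : MemLp u 2 μ) (hu' : MemLp u' 2 μ)
    (hv : MemLp v 2 μ) : B μ (fun x => u x + u' x) v = B μ u v + B μ u' v := by
  unfold B
  have h1 : ∫ x, (u x * v x + u' x * v x) ∂μ = ∫ x, u x * v x ∂μ + ∫ x, u' x * v x ∂μ :=
    integral_add (hu.integrable_mul hv) (hu'.integrable_mul hv)
  rw [← h1]
  congr 1
  funext x
  ring

theorem B_add_right {μ : Measure Ω} {u v v' : Ω → ℝ} (hu : MemLp u 2 μ) (hv : MemLp v 2 μ)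
    (hv' : MemLp v' 2 μ) : B μ u (fun x => v x + v' x) = B μ u v + B μ u v' := by
  rw [B_comm, B_add_left hv hv' hu, B_comm μ v, B_comm μ v']

theorem B_comp {μ : Measure Ω} {S : Ω → Ω} (hS : MeasurePreserving S μ μ) {u v : Ω → ℝ}
    (hu : Measurable u) (hv : Measurable v) :
    B μ (fun x => u (S x)) (fun x => v (S x)) = B μ u v := by
  unfold B
  have h1 : ∫ y, u y * v y ∂(μ.map S) = ∫ x, u (S x) * v (S x) ∂μ :=
    integral_map hS.measurable.aemeasurable (by fun_prop)
  rw [← h1, hS.map_eq]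

theorem pi_char {μ : Measure Ω} [IsProbabilityMeasure μ] {ι : Type*} [Fintype ι] (w : ι → Ω → ℝ)
    (hw : ∀ l, IsG μ (w l)) :
    ∫ x : ι → Ω, Complex.exp ((∑ l, w l (x l) : ℝ) * Complex.I) ∂(Measure.pi fun _ => μ) =
      Complex.exp ((-(1 / 2) * ∑ l, B μ (w l) (w l) : ℝ)) := by
  have h1 : ∀ x : ι → Ω, Complex.exp ((∑ l, w l (x l) : ℝ) * Complex.I) =
      ∏ l, Complex.exp ((w l (x l)) * Complex.I) := by
    intro x
    rw [← Complex.exp_sum]
    push_cast
    rw [sum_mul]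
  simp_rw [h1]
  rw [integral_fintype_prod_eq_prod (𝕜 := ℂ) (f := fun l (y : Ω) => Complex.exp ((w l y) * Complex.I))]
  simp_rw [(hw _).char]
  rw [← Complex.exp_sum]
  push_cast
  rw [mul_sum]

theorem B_key {μ : Measure Ω} {k : ℕ} (hk : 0 < k) (u : Fin k → Ω → ℝ)
    (hu : ∀ j, MemLp (u j) 2 μ) :
    B μ (fun x => ∑ j, u j x) (fun x => ∑ j, u j x) +
      k * ∑ l, B μ (fun x => u l x + (-(1 / (k : ℝ))) * ∑ j, u j x)
        (fun x => u l x + (-(1 / (k : ℝ))) * ∑ j, u j x) = k * ∑ l, B μ (u l) (u l) := by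
  have hk' : (k : ℝ) ≠ 0 := by exact_mod_cast hk.ne'
  set U : Ω → ℝ := fun x => ∑ j, u j x with hU
  set c : ℝ := -(1 / (k : ℝ)) with hc
  have hUL : MemLp U 2 μ := memLp_finsetSum _ fun j _ => hu j
  have hcU : MemLp (fun x => c * U x) 2 μ := hUL.const_mul c
  have h1 : ∀ l, B μ (fun x => u l x + c * U x) (fun x => u l x + c * U x) =
      B μ (u l) (u l) + 2 * c * B μ (u l) U + c * c * B μ U U := by
    intro l
    have hs : MemLp (fun x => u l x + c * U x) 2 μ := (hu l).add hcU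
    rw [B_add_left (hu l) hcU hs, B_add_right (hu l) (hu l) hcU,
      B_add_right hcU (hu l) hcU, B_smul_right, B_smul_left, B_smul_left, B_smul_right,
      B_comm μ U (u l)]
    ring
  have h2 : ∑ l, B μ (u l) U = B μ U U := by
    have h3 := B_sum (μ := μ) (univ : Finset (Fin k)) ({()} : Finset Unit) u (fun _ => U)
      (fun j _ => hu j) (fun _ _ => hUL)
    simpa using h3.symm
  have h1' : ∀ l, B μ (fun x => u l x + c * ∑ j, u j x) (fun x => u l x + c * ∑ j, u j x) =
      B μ (u l) (u l) + 2 * c * B μ (u l) U + c * c * B μ U U := h1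
  simp_rw [h1']
  rw [sum_add_distrib, sum_add_distrib, ← mul_sum, h2, sum_const, card_univ, Fintype.card_fin,
    nsmul_eq_mul, hc]
  field_simp
  ring

end Pool.Agent.GAU
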