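import Pool.Agent.GAU.Gau

set_option autoImplicit false

/-! The rotation lemma: with `k + 1` independent copies, `(√k ξ_j(x_j))_j` and
`(ξ_j(x_0) + √k (ξ_j(x_j) - (1/k) ∑_l ξ_j(x_l)))_j` have the same joint law (also for families). -/

open Finset Filter Topology MeasureTheory ProbabilityTheory
open scoped NNReal ENNReal

namespace Pool.Agent.GAU

open Pool.Agent.CAM

variable {Ω : Type*} [MeasurableSpace Ω] {μ : Measure Ω} [IsProbabilityMeasure μ]

/-- the rotated combination -/
noncomputable def rc {k : ℕ} (u : Fin k → Ω → ℝ) (x : Fin k → Ω) : ℝ :=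
  Real.sqrt k * ∑ l, (u l (x l) + (-(1 / (k : ℝ))) * ∑ j, u j (x l))

theorem cond_int {k : ℕ} (hk : 0 < k) {H : Submodule ℝ (Ω → ℝ)} (hH : ∀ ξ ∈ H, IsG μ ξ)
    (u : Fin k → Ω → ℝ) (hu : ∀ j, u j ∈ H) (t : ℝ) :
    ∫ x : Fin k → Ω, Complex.exp (((t + rc u x : ℝ) : ℂ) * Complex.I) ∂(Measure.pi fun _ => μ) =
      Complex.exp ((t : ℂ) * Complex.I) * Complex.exp ((-(1 / 2) * (k * ∑ l, B μ (u l) (u l) -
        B μ (fun x => ∑ j, u j x) (fun x => ∑ j, u j x)) : ℝ)) := by
  have hsum : (fun x => ∑ j, u j x) ∈ H := by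
    have : (fun x => ∑ j, u j x) = ∑ j, u j := by
      funext x
      rw [Finset.sum_apply]
    rw [this]
    exact H.sum_mem fun j _ => hu j
  set v : Fin k → Ω → ℝ := fun l x => u l x + (-(1 / (k : ℝ))) * ∑ j, u j x with hv
  have hvH : ∀ l, v l ∈ H := fun l => H.add_mem (hu l) (H.smul_mem (-(1 / (k : ℝ))) hsum)
  set w : Fin k → Ω → ℝ := fun l x => Real.sqrt k * v l x with hw
  have hwH : ∀ l, w l ∈ H := fun l => H.smul_mem (Real.sqrt k) (hvH l)
  have h1 := pi_char (μ := μ) w fun l => hH _ (hwH l)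
  have h2 : ∀ x : Fin k → Ω, Complex.exp (((t + rc u x : ℝ) : ℂ) * Complex.I) =
      Complex.exp ((t : ℂ) * Complex.I) * Complex.exp ((∑ l, w l (x l) : ℝ) * Complex.I) := by
    intro x
    rw [← Complex.exp_add]
    congr 1
    have : rc u x = ∑ l, w l (x l) := by
      rw [rc, mul_sum]
    rw [this]
    push_cast
    ring
  simp_rw [h2]
  rw [integral_const_mul, h1]
  congr 2
  have h3 : ∀ l, B μ (w l) (w l) = k * B μ (v l) (v l) := by
    intro l
    simp only [hw]
    rw [B_smul_left, B_smul_right, ← mul_assoc, Real.mul_self_sqrt (Nat.cast_nonneg k)]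
  have h4 := B_key hk u (fun j => (hH _ (hu j)).memLp)
  simp_rw [h3]
  rw [← mul_sum]
  congr 1
  have h5 : (k : ℝ) * ∑ l, B μ (v l) (v l) = k * ∑ l, B μ (u l) (u l) -
      B μ (fun x => ∑ j, u j x) (fun x => ∑ j, u j x) := by
    simp only [hv]
    linarith
  rw [h5]

/-- the first family -/
noncomputable def P1 {k : ℕ} {κ : Type*} (g : Fin k × κ → Ω → ℝ) (x : Fin k → Ω) :
    Fin k × κ → ℝ := fun p => Real.sqrt k * g p (x p.1)

/-- the second family -/
noncomputable def P2 {k : ℕ} {κ : Type*} (g : Fin k × κ → Ω → ℝ) (z : Ω × (Fin k → Ω)) :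
    Fin k × κ → ℝ := fun p => g p z.1 +
      Real.sqrt k * (g p (z.2 p.1) + (-(1 / (k : ℝ))) * ∑ l, g p (z.2 l))

theorem rot {k : ℕ} (hk : 0 < k) {κ : Type*} {H : Submodule ℝ (Ω → ℝ)}
    (hH : ∀ ξ ∈ H, IsG μ ξ) (g : Fin k × κ → Ω → ℝ) (hg : ∀ p, g p ∈ H) :
    (Measure.pi fun _ : Fin k => μ).map (P1 g) =
      (μ.prod (Measure.pi fun _ : Fin k => μ)).map (P2 g) := by
  classical
  have hgm : ∀ p, Measurable (g p) := fun p => (hH _ (hg p)).1
  have hm1 : Measurable (P1 g) := by
    refine measurable_pi_lambda _ fun p => ?_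
    exact ((hgm p).comp (measurable_pi_apply _)).const_mul _
  have hm2 : Measurable (P2 g) := by
    refine measurable_pi_lambda _ fun p => ?_
    refine ((hgm p).comp measurable_fst).add (Measurable.const_mul ?_ _)
    refine ((hgm p).comp ((measurable_pi_apply _).comp measurable_snd)).add
      (Measurable.const_mul ?_ _)
    exact Finset.measurable_sum _ fun l _ => (hgm p).comp ((measurable_pi_apply _).comp measurable_snd)
  have : IsProbabilityMeasure ((Measure.pi fun _ : Fin k => μ).map (P1 g)) :=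
    Measure.isProbabilityMeasure_map hm1.aemeasurable
  have : IsProbabilityMeasure ((μ.prod (Measure.pi fun _ : Fin k => μ)).map (P2 g)) :=
    Measure.isProbabilityMeasure_map hm2.aemeasurable
  refine IsProjectiveLimit.unique (P := fun I => ((Measure.pi fun _ : Fin k => μ).map (P1 g)).map
    I.restrict) (fun I => rfl) (fun I => ?_)
  have hmr : Measurable (I.restrict : (Fin k × κ → ℝ) → (I → ℝ)) := by fun_prop
  have : IsProbabilityMeasure (((Measure.pi fun _ : Fin k => μ).map (P1 g)).map
      (I.restrict : (Fin k × κ → ℝ) → (I → ℝ))) := Measure.isProbabilityMeasure_map hmr.aemeasurable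
  have : IsProbabilityMeasure (((μ.prod (Measure.pi fun _ : Fin k => μ)).map (P2 g)).map
      (I.restrict : (Fin k × κ → ℝ) → (I → ℝ))) := Measure.isProbabilityMeasure_map hmr.aemeasurable
  refine Measure.ext_of_charFunDual (funext fun L => ?_)
  rw [charFunDual_apply, charFunDual_apply]
  rw [integral_map hmr.aemeasurable (by fun_prop), integral_map hmr.aemeasurable (by fun_prop),
    integral_map hm1.aemeasurable (by fun_prop), integral_map hm2.aemeasurable (by fun_prop)]
  -- the coefficients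
  set a : I → ℝ := fun p => L (Pi.single p 1) with ha
  have hL : ∀ v : I → ℝ, L v = ∑ p, a p * v p := by
    intro v
    conv_lhs => rw [← Finset.univ_sum_single v]
    rw [map_sum]
    refine sum_congr rfl fun p _ => ?_
    have h1 : (Pi.single p (v p) : I → ℝ) = v p • (Pi.single p 1 : I → ℝ) := by
      rw [← Pi.single_smul, smul_eq_mul, mul_one]
    rw [h1, map_smul, smul_eq_mul, ha, mul_comm]
  set u : Fin k → Ω → ℝ := fun l x => ∑ p : I, if p.1.1 = l then a p * g p.1 x else 0 with hu
  have huH : ∀ l, u l ∈ H := by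
    intro l
    have h1 : u l = ∑ p : I, if p.1.1 = l then a p • g p.1 else 0 := by
      funext x
      rw [Finset.sum_apply]
      refine sum_congr rfl fun p _ => ?_
      split_ifs <;> simp
    rw [h1]
    refine H.sum_mem fun p _ => ?_
    split_ifs
    · exact H.smul_mem _ (hg _)
    · exact H.zero_mem
  have hU : ∀ x, ∑ l, u l x = ∑ p : I, a p * g p.1 x := by
    intro x
    simp only [hu]
    rw [sum_comm]
    refine sum_congr rfl fun p _ => ?_
    rw [sum_ite_eq]
    simp
  have hUd : ∀ x : Fin k → Ω, ∑ l, u l (x l) = ∑ p : I, a p * g p.1 (x p.1.1) := by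
    intro x
    simp only [hu]
    rw [sum_comm]
    refine sum_congr rfl fun p _ => ?_
    rw [sum_ite_eq]
    simp
  -- first integral
  have e1 : ∀ x : Fin k → Ω, L (I.restrict (P1 g x)) = ∑ l, (Real.sqrt k * u l (x l)) := by
    intro x
    rw [hL, ← mul_sum, hUd, mul_sum]
    refine sum_congr rfl fun p _ => ?_
    simp only [P1, Finset.restrict]
    ring
  have e2 : ∀ z : Ω × (Fin k → Ω), L (I.restrict (P2 g z)) = (∑ l, u l z.1) + rc u z.2 := by
    intro z
    have h1 : rc u z.2 = Real.sqrt k * (∑ p : I, a p * g p.1 (z.2 p.1.1) +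
        (-(1 / (k : ℝ))) * ∑ p : I, a p * ∑ l, g p.1 (z.2 l)) := by
      rw [rc, sum_add_distrib, hUd, ← mul_sum]
      simp_rw [hU]
      rw [sum_comm]
      simp_rw [mul_sum]
    rw [hL, h1, hU]
    have h2 : ∀ p : I, a p * I.restrict (P2 g z) p = a p * g p.1 z.1 +
        Real.sqrt k * (a p * g p.1 (z.2 p.1.1)) +
        Real.sqrt k * (-(1 / (k : ℝ))) * (a p * ∑ l, g p.1 (z.2 l)) := by
      intro p
      simp only [P2, Finset.restrict]
      ring
    simp_rw [h2]
    rw [sum_add_distrib, sum_add_distrib, ← mul_sum, ← mul_sum]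
    ring
  have I1 : ∫ x : Fin k → Ω, Complex.exp ((L (I.restrict (P1 g x)) : ℂ) * Complex.I)
      ∂(Measure.pi fun _ => μ) = Complex.exp ((-(1 / 2) * (k * ∑ l, B μ (u l) (u l)) : ℝ)) := by
    simp_rw [e1]
    rw [pi_char (μ := μ) (fun l y => Real.sqrt k * u l y)
      (fun l => hH _ (H.smul_mem (Real.sqrt k) (huH l)))]
    congr 3
    rw [mul_sum]
    refine sum_congr rfl fun l _ => ?_
    rw [B_smul_left, B_smul_right, ← mul_assoc, Real.mul_self_sqrt (Nat.cast_nonneg k)]
  have hUH : (fun x => ∑ j, u j x) ∈ H := by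
    have : (fun x => ∑ j, u j x) = ∑ j, u j := by
      funext x
      rw [Finset.sum_apply]
    rw [this]
    exact H.sum_mem fun j _ => huH j
  have hum : ∀ l, Measurable (u l) := fun l => (hH _ (huH l)).1
  have hrcm : Measurable (rc u) := by
    unfold rc
    refine Measurable.const_mul ?_ _
    refine Finset.measurable_sum _ fun l _ => ?_
    refine ((hum l).comp (measurable_pi_apply _)).add (Measurable.const_mul ?_ _)
    exact Finset.measurable_sum _ fun j _ => (hum j).comp (measurable_pi_apply _)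
  have I2 : ∫ z : Ω × (Fin k → Ω), Complex.exp ((L (I.restrict (P2 g z)) : ℂ) * Complex.I)
      ∂(μ.prod (Measure.pi fun _ => μ)) =
      Complex.exp ((-(1 / 2) * (k * ∑ l, B μ (u l) (u l)) : ℝ)) := by
    simp_rw [e2]
    rw [integral_prod]
    · have h1 : ∀ y : Ω, ∫ x : Fin k → Ω, Complex.exp (((((∑ l, u l y) + rc u x : ℝ)) : ℂ) *
          Complex.I) ∂(Measure.pi fun _ => μ) =
          Complex.exp (((∑ l, u l y : ℝ) : ℂ) * Complex.I) * Complex.exp ((-(1 / 2) *
            (k * ∑ l, B μ (u l) (u l) - B μ (fun x => ∑ j, u j x) (fun x => ∑ j, u j x)) : ℝ)) :=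
        fun y => cond_int hk hH u huH _
      simp_rw [h1]
      rw [integral_mul_const, (hH _ hUH).char, ← Complex.exp_add]
      congr 1
      push_cast
      ring
    · refine Integrable.of_bound (C := 1) ?_ (Eventually.of_forall fun z => ?_)
      · refine Measurable.aestronglyMeasurable ?_
        have h2 : Measurable fun z : Ω × (Fin k → Ω) => ((∑ l, u l z.1) + rc u z.2 : ℝ) :=
          (Finset.measurable_sum _ fun l _ => (hum l).comp measurable_fst).add
            (hrcm.comp measurable_snd)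
        exact ((Complex.measurable_ofReal.comp h2).mul_const _).cexp
      · rw [Complex.norm_exp_ofReal_mul_I]
  rw [I1, I2]

end Pool.Agent.GAU
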